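import Pool.Agent.Work.MP_d3517d_nt.ES.RhoC
import Pool.Agent.Work.MP_d3517d_nt.Stmt
import Pool.Agent.Work.MP_d3517d_nt.Apx

/-!
# Counting systems of eigenvalues in one residue class (MP_d3517d_nt, cell FIN)

* `InC j A c χ`: the values of `χ` at the primes `q ∈ A` are congruent to `c q`;
* `slp j χ`: the slope of `χ` at `p`;
* `tot`, `cnt`: the number of systems of level `M` and weight `k` in the class (with slope `≤ x`);
* `den`, `newden`: the linear combinations of the densities at the levels divisible by `4` which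
  give the densities for the systems of level `M` and for the newforms of level `N` (`p ≥ 5`).
-/

open UpperHalfPlane CongruenceSubgroup MvPolynomial
open scoped MatrixGroups ModularForm ENNReal

noncomputable section

namespace Gouvea.Fin

open Gouvea.Sys Gouvea.ES

variable {p : ℕ} [Fact p.Prime] (j : algebraicClosure ℚ ℂ →+* PadicAlgCl p)

/-- `p` as an element of `Nat.Primes` -/
def pr (p : ℕ) [Fact p.Prime] : Nat.Primes := ⟨p, Fact.out⟩

/-- `2` as an element of `Nat.Primes` -/
def pr2 : Nat.Primes := ⟨2, Nat.prime_two⟩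

/-- the values of `χ` at the primes in `A` are congruent to `c` -/
def InC (A : Set Nat.Primes) (c : Nat.Primes → PadicAlgCl p)
    (χ : MvPolynomial Nat.Primes ℤ →+* ℂ) : Prop :=
  ∀ q ∈ A, ‖emb p j (χ (X q)) - c q‖ < 1

/-- the slope -/
def slp (χ : MvPolynomial Nat.Primes ℤ →+* ℂ) : ℝ≥0∞ := vp p (emb p j (χ (X (pr p))))

open scoped Classical in
/-- the number of systems of eigenvalues of level `M` and weight `k` in the class -/
def tot (M k : ℕ) [NeZero M] (A : Set Nat.Primes) (c : Nat.Primes → PadicAlgCl p) : ℕ :=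
  Multiset.card ((Sys (rhoC M k)).filter fun χ => InC j A c χ)

open scoped Classical in
/-- the number of those with slope at most `x` -/
def cnt (M k : ℕ) [NeZero M] (A : Set Nat.Primes) (c : Nat.Primes → PadicAlgCl p) (x : ℝ) : ℕ :=
  Multiset.card ((Sys (rhoC M k)).filter fun χ => InC j A c χ ∧ slp j χ ≤ ENNReal.ofReal x)

/-- the primes not dividing `N` and different from `p` -/
def AN (p N : ℕ) : Set Nat.Primes := {q | ¬ (q : ℕ) ∣ N * p}

/-- a square root of `2 ^ r` -/
def sr (p r : ℕ) [Fact p.Prime] : PadicAlgCl p :=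
  Classical.choose (IsAlgClosed.exists_pow_nat_eq ((2 : PadicAlgCl p) ^ r) two_pos)

theorem sr_sq (r : ℕ) : sr p r ^ 2 = (2 : PadicAlgCl p) ^ r :=
  Classical.choose_spec (IsAlgClosed.exists_pow_nat_eq ((2 : PadicAlgCl p) ^ r) two_pos)

/-- `α` is a root of `X² - a X + 2 ^ (r + 1)` with `α² ≢ 2 ^ r` -/
def IsRt (a : PadicAlgCl p) (r : ℕ) (α : PadicAlgCl p) : Prop :=
  α ^ 2 - a * α + 2 ^ (r + 1) = 0 ∧ ‖α ^ 2 - 2 ^ r‖ = 1

open scoped Classical in
/-- a choice of such a root (if there is one) -/
def rt (a : PadicAlgCl p) (r : ℕ) : PadicAlgCl p :=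
  if h : ∃ α, IsRt a r α then Classical.choose h else 0

open scoped Classical in
/-- the number of roots of `X² - a X + 2 ^ (r + 1)` congruent to `rt a r` -/
def mu (a : PadicAlgCl p) (r : ℕ) : ℝ := if ‖a - 2 * rt a r‖ < 1 then 2 else 1

/-- the density of a class at level `M ∣ N`, in terms of the densities `bet` at the levels
divisible by `4` -/
def den (bet : ℕ → Set Nat.Primes → (Nat.Primes → PadicAlgCl p) → ℕ → ℝ) (N M : ℕ)
    (c : Nat.Primes → PadicAlgCl p) (n : ℕ) : ℝ :=
  let A := AN p N
  let A' := insert pr2 (AN p N)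
  let r := n % (p - 1)
  if 4 ∣ M then bet M A c n
  else if 2 ∣ M then bet (2 * M) A c n - bet (2 * M) A' (Function.update c pr2 0) n
  else if 2 ∣ N then (bet (4 * M) A c n - bet (4 * M) A' (Function.update c pr2 0) n
    - (bet (4 * M) A' (Function.update c pr2 (sr p r)) n
      + bet (4 * M) A' (Function.update c pr2 (-sr p r)) n)
    + (bet (4 * M) A' (Function.update c pr2 (2 * sr p r)) n
      + bet (4 * M) A' (Function.update c pr2 (-(2 * sr p r))) n)) / 2
  else bet (4 * M) A (Function.update c pr2 (rt (c pr2) r)) n / mu (c pr2) r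

/-- the density for the newforms of level `N` in the class -/
def newden (bet : ℕ → Set Nat.Primes → (Nat.Primes → PadicAlgCl p) → ℕ → ℝ) (N : ℕ)
    (c : Nat.Primes → PadicAlgCl p) (n : ℕ) : ℝ :=
  ∑ x ∈ N.divisorsAntidiagonal,
    (((ArithmeticFunction.moebius * ArithmeticFunction.moebius) x.1 : ℤ) : ℝ) * den bet N x.2 c n

end Gouvea.Fin
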