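import Pool.Agent.Work.MP_d3517d_nt.Fin.Main23
import Pool.Agent.Work.MP_d3517d_nt.P5.TLevC
import Pool.Agent.Work.MP_d3517d_nt.P5.TLevOne
import Pool.Agent.Work.MP_d3517d_nt.P5.Pos2
import Pool.Agent.Work.MP_d3517d_nt.P5.Pos3
import Pool.Agent.Work.MP_d3517d_nt.Cnt.ExactZero

/-!
# Gouvêa's question for `p = 2` and `p = 3` (MP_d3517d_nt): the levels `M p ^ 2` and `M p`

`tlev_all` joins the cases `M ≥ 2` and `M = 1`; `q1_23_of_lev_one` leaves only the counting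
functions of level one and the exact Eichler–Shimura isomorphism of level `9 M` as hypotheses.
-/

open UpperHalfPlane CongruenceSubgroup
open scoped MatrixGroups ModularForm ENNReal

noncomputable section

namespace Gouvea.Fin

open Gouvea.Sys Gouvea.ES Gouvea.P5

variable {p : ℕ} [hp : Fact p.Prime]

/-- **The levels `M p ^ 2` and `M p`.** -/
theorem tlev_all (h23 : p = 2 ∨ p = 3) (j : algebraicClosure ℚ ℂ →+* PadicAlgCl p) (M : ℕ)
    [NeZero M] (hpM : ¬ p ∣ M) {A : Set Nat.Primes} {c : Nat.Primes → PadicAlgCl p}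
    (hA : ∀ q ∈ A, (q : ℕ) ≠ p) (hc : ∀ q ∈ A, ‖c q‖ ≤ 1) : ∃ C : ℝ, ∀ n, Even n →
      |(tot j (M * p * p) (n + 2) A c : ℝ) - p * tot j (M * p) (n + 2) A c| ≤ C := by
  rcases Nat.lt_or_ge M 2 with h | h
  · have hM1 : M = 1 := by
      have := Nat.pos_of_ne_zero (NeZero.ne M)
      omega
    subst hM1
    exact tlevel_one (j := j) h23 (one_mul p) (by rw [one_mul]) hA c
  · obtain ⟨C, hC⟩ := tlevel j h23 h hpM hA hc
    refine ⟨C, fun n hn => ?_⟩
    rw [tot_level j (show M * p * p = p * p * M by ring), tot_level j (show M * p = p * M by ring)]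
    exact hC n hn

/-- `p = 2, 3` from the counting functions of level one. -/
theorem q1_23_of_lev_one (hp23 : p = 2 ∨ p = 3) {N : ℕ} (hN : 0 < N) (hpN : ¬ p ∣ N)
    (h1 : ∀ (j : algebraicClosure ℚ ℂ →+* PadicAlgCl p) {A : Set Nat.Primes}
      {c : Nat.Primes → PadicAlgCl p}, (∀ q ∈ A, (q : ℕ) ≠ p) → (∀ q ∈ A, ‖c q‖ ≤ 1) →
      ∃ b C : ℝ, 0 ≤ b ∧ Apx ((p : ℝ) + 1) (fun n x => (cnt j 1 (n + 2) A c x : ℝ))
        (fun n => (tot j 1 (n + 2) A c : ℝ)) (fun n => if Even n then b else 0) ∧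
        ∀ n, Even n → |(tot j (1 * p) (n + 2) A c : ℝ) - b * n| ≤ C)
    (hE9 : ∀ n, POS.ExactES9 n) : Q1 p N := by
  refine q1_23_of hp23 hN hpN h1 (fun j M _ hpM => tlev_all hp23 j M hpM) ?_
  intro j k₀ f₀ hf₀ hc bt hT
  rcases hp23 with h | h
  · subst h
    exact Pos23.pos_two hN hpN hf₀ hc (fun M _ hM => hT M hM)
      fun n hn => Cnt.exactES n hn hn
  · subst h
    exact Pos23.pos_three hN hpN hf₀ hc (fun M _ hM => hT M hM) hE9

end Gouvea.Fin
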