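import Pool.Agent.Work.MP_d3517d_nt.Fin.Bet9
import Pool.Agent.Work.MP_d3517d_nt.A.Main

/-!
# The counting functions at the levels divisible by `9` (MP_d3517d_nt)
-/

open Gouvea.Sys

noncomputable section

namespace Gouvea.Fin

variable {p : ℕ} [Fact p.Prime] (j : algebraicClosure ℚ ℂ →+* PadicAlgCl p)

/-- **The counting functions of the cusp forms of level `M`, `9 ∣ M`.** -/
theorem apx_bet9 (M : ℕ) [NeZero M] (hM : 9 ∣ M) (hpM : ¬ p ∣ M)
    {A : Set Nat.Primes} {c : Nat.Primes → PadicAlgCl p}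
    (hA : ∀ q ∈ A, (q : ℕ) ≠ p) (hc : ∀ q ∈ A, ‖c q‖ ≤ 1) :
    Apx ((p : ℝ) + 1) (fun n x => (cnt j M (n + 2) A c x : ℝ))
      (fun n => (tot j M (n + 2) A c : ℝ)) (bet9 M A c) :=
  apx_bet9_of j M hM hpM (fewExcA _ _ _ (pnD M hM hpM) (pnSrc M hM hpM).hh) hA hc

end Gouvea.Fin
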