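import Pool.Agent.Work.MP_d3517d_nt.Fin.Defs
import Pool.Agent.Work.MP_d3517d_nt.Sys.Src

/-!
# From a source to the systems of eigenvalues on cusp forms (MP_d3517d_nt)

`apx_of_src`: if the systems of the integral matrices of a source are those of the cusp forms of
level `M`, twice, up to a bounded number, then the counting functions `cnt`, `tot` of level `M`
have the density `betS`.
-/

open UpperHalfPlane CongruenceSubgroup MvPolynomial
open scoped MatrixGroups ModularForm ENNReal

noncomputable section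

namespace Gouvea.Fin

open Gouvea.Sys Gouvea.ES

variable {p : ℕ} [Fact p.Prime] (j : algebraicClosure ℚ ℂ →+* PadicAlgCl p)

/-- There are no cusp forms of odd weight. -/
theorem cusp_odd {N k : ℕ} (hk : Odd k) (f : Gouvea.Cusp N k) : f = 0 := by
  ext z
  have h1 : (-1 : GL (Fin 2) ℝ) ∈ Gam0 N := by
    refine ⟨-1, by simp [Gamma0_mem], ?_⟩
    ext i k
    fin_cases i <;> fin_cases k <;> simp
  have hf := SlashInvariantForm.slash_action_eqn'' f h1 z
  have hk' : Odd (k : ℤ) := by exact_mod_cast hk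
  rw [neg_smul, one_smul, denom_neg, denom_one, hk'.neg_one_zpow] at hf
  have h2 : (2 : ℂ) * f z = 0 := by linear_combination hf
  exact (mul_eq_zero.mp h2).resolve_left (by norm_num)

theorem Sys_odd {N k : ℕ} [NeZero N] (hk : Odd k) : Sys (rhoC N k) = 0 := by
  have h1 : Subsingleton (Gouvea.Cusp N k) :=
    ⟨fun f g => (cusp_odd hk f).trans (cusp_odd hk g).symm⟩
  rw [← Multiset.card_eq_zero, card_Sys]
  exact Module.finrank_zero_of_subsingleton

theorem vp_le_iff {x : ℝ} (hx : 0 ≤ x) (y : PadicAlgCl p) :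
    vp p y ≤ ENNReal.ofReal x ↔ (p : ℝ) ^ (-x) ≤ ‖y‖ := by
  have hp1 : (1 : ℝ) < p := by exact_mod_cast (Fact.out : p.Prime).one_lt
  unfold vp
  split_ifs with h
  · rw [h, norm_zero]
    constructor
    · intro h1
      exact absurd h1 (by simp)
    · intro h1
      have h2 : (0 : ℝ) < (p : ℝ) ^ (-x) := Real.rpow_pos_of_pos (by linarith) _
      linarith
  · have h1 : 0 < ‖y‖ := norm_pos_iff.mpr h
    rw [ENNReal.ofReal_le_ofReal_iff hx, neg_le, Real.le_logb_iff_rpow_le hp1 h1]

open Classical in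
/-- **From a source to the cusp forms.** -/
theorem apx_of_src (S : Src p) (hexc : FewExcStat S.D) (M : ℕ) [NeZero M] (C n0 : ℕ)
    (hES : ∀ n (hn : Even n), n0 ≤ n → ∃ r : Multiset (MvPolynomial Nat.Primes ℤ →+* ℂ),
      r.card ≤ C ∧ Sys (matRep (intRep ℂ (S.A n hn))) =
        Sys (rhoC M (n + 2)) + Sys (rhoC M (n + 2)) + r)
    {A : Set Nat.Primes} {c : Nat.Primes → PadicAlgCl p}
    (hA : ∀ q ∈ A, (q : ℕ) ≠ p) (hc : ∀ q ∈ A, ‖c q‖ ≤ 1) :
    Apx ((p : ℝ) + 1) (fun n x => (cnt j M (n + 2) A c x : ℝ))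
      (fun n => (tot j M (n + 2) A c : ℝ)) (betS S A c) := by
  have hodd : ∀ n, ¬ Even n → Sys (rhoC M (n + 2)) = 0 := by
    intro n hn
    exact Sys_odd (by rw [Nat.not_even_iff_odd] at hn; exact hn.add_even even_two)
  have key : ∀ n (hn : Even n), n0 ≤ n → ∀ P : (HR → PadicAlgCl p) → Prop,
      |((((Sys (rhoC M (n + 2))).filter fun χ => P fun r => emb p j (χ r)).card : ℕ) : ℝ) -
        (1 / 2) * ((((Sys (matRep (intRep (PadicAlgCl p) (S.A n hn)))).filter
          fun χ => P fun r => χ r).card : ℕ) : ℝ)| ≤ C := by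
    intro n hn hn0 P
    obtain ⟨r, hr, hrS⟩ := hES n hn hn0
    rw [← card_emb (S.A n hn) j P, hrS, Multiset.filter_add, Multiset.filter_add,
      Multiset.card_add, Multiset.card_add]
    have h1 : ((r.filter fun χ => P fun r => emb p j (χ r)).card : ℝ) ≤ C := by
      exact_mod_cast (Multiset.card_le_card (Multiset.filter_le _ _)).trans hr
    have h2 : (0 : ℝ) ≤ ((r.filter fun χ => P fun r => emb p j (χ r)).card : ℝ) :=
      Nat.cast_nonneg _
    push_cast
    rw [abs_le]
    constructor <;> linarith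
  refine (apx_betS S hexc hA hc).perturb C n0 ?_ ?_
  · intro n hn0 x hx _
    by_cases hn : Even n
    · rw [dif_pos hn]
      have h1 := key n hn hn0 fun g => InP A c g ∧ (p : ℝ) ^ (-x) ≤ ‖g (Xp p)‖
      have h2 : cnt j M (n + 2) A c x = ((Sys (rhoC M (n + 2))).filter fun χ =>
          InP A c (fun r => emb p j (χ r)) ∧ (p : ℝ) ^ (-x) ≤ ‖emb p j (χ (Xp p))‖).card := by
        unfold cnt
        congr 1
        apply Multiset.filter_congr
        intro χ _
        rw [slp, vp_le_iff hx]
        rfl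
      rw [h2]
      convert h1
    · rw [dif_neg hn]
      have h2 : cnt j M (n + 2) A c x = 0 := by
        unfold cnt
        rw [hodd n hn]
        rfl
      rw [h2]
      simp
  · intro n hn0
    by_cases hn : Even n
    · rw [dif_pos hn]
      exact key n hn hn0 fun g => InP A c g
    · rw [dif_neg hn]
      have h2 : tot j M (n + 2) A c = 0 := by
        unfold tot
        rw [hodd n hn]
        rfl
      rw [h2]
      simp

end Gouvea.Fin
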