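import Pool.Agent.Work.MP_d3517d_nt.Fin.FiveAll
import Pool.Agent.Work.MP_d3517d_nt.Fin.All23
import Pool.Agent.Work.MP_d3517d_nt.P5.LevOne
import Pool.Agent.Work.MP_d3517d_nt.CN.ExactZero

/-!
# Gouvêa's question Q1 for all primes, all levels and all residual representations
-/

noncomputable section

namespace Gouvea.Fin

variable {p : ℕ} [hp : Fact p.Prime]

/-- **Gouvêa's question for `p = 2, 3`, all levels.** -/
theorem q1_23 (hp23 : p = 2 ∨ p = 3) {N : ℕ} (hN : 0 < N) (hpN : ¬ p ∣ N) : Q1 p N :=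
  q1_23_of_lev_one hp23 hN hpN (fun j _ _ hA hc => P5.lev_one hp23 j hA hc) CN.exactES9

/-- **Gouvêa's question.** -/
theorem q1_all {N : ℕ} (hN : 0 < N) (hpN : ¬ p ∣ N) : Q1 p N := by
  have hpr : p.Prime := hp.out
  rcases Nat.lt_or_ge p 5 with h | h
  · refine q1_23 ?_ hN hpN
    have h2 := hpr.two_le
    have h4 : p ≠ 4 := by
      rintro rfl
      exact absurd hpr (by decide)
    omega
  · exact q1_five h hN hpN

end Gouvea.Fin
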