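import Pool.Agent.Work.MP_d3517d_nt.Fin.SrcApx
import Pool.Agent.Work.MP_d3517d_nt.ES.Main
import Pool.Agent.Work.MP_d3517d_nt.ES.Lattice
import Pool.Agent.Work.MP_d3517d_nt.PS.Source

/-!
# The densities at the levels divisible by `4` (MP_d3517d_nt)

`bet M A c n`: the density of the systems of level `M` (`4 ∣ M`, `p ∤ M`, `p ≠ 2`) in the class
`(A, c)`, in the weights congruent to `n + 2` modulo `p - 1`.
-/

open MvPolynomial Gouvea.Sys Gouvea.ES Gouvea.PS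

noncomputable section

namespace Gouvea.Fin

variable {p : ℕ} [Fact p.Prime]

section

variable (hp2 : p ≠ 2) (M : ℕ) [NeZero M] (hM : 4 ∣ M) (hpM : ¬ p ∣ M)

/-- The data of level `M`. -/
def psD : Dat p (2 * Fintype.card (Vx M)) (Vx (M * p) × Bool) (Vx M × Bool) :=
  (source hp2 M hM hpM).choose

/-- The Hecke action on the data of level `M`. -/
def psH : HRep (psD hp2 M hM hpM) (HR0 p) := (source hp2 M hM hpM).choose_spec.choose

theorem psH_TE (n : ℕ) (hn : Even n) (r : {l : ℕ // l.Prime ∧ l ≠ p}) :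
    (psH hp2 M hM hpM).TE n hn (MvPolynomial.X r) = bdg fun b => tE M p b n r.1 :=
  (source hp2 M hM hpM).choose_spec.choose_spec.2.2.2.2.2.2.1 n hn r

theorem psH_twist (n : ℕ) (hn : Even n) (i j : ℕ) (r : {l : ℕ // l.Prime ∧ l ≠ p}) :
    (psH hp2 M hM hpM).gr (n + 2 * j) (i + j) (MvPolynomial.X r) =
      (r.1 : ZMod p) ^ j • (psH hp2 M hM hpM).gr n i (MvPolynomial.X r) :=
  (source hp2 M hM hpM).choose_spec.choose_spec.2.2.2.2.2.2.2 n hn i j r

/-- The source of level `M`. -/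
def psSrc : Src p where
  h := 2 * Fintype.card (Vx M)
  E := Vx (M * p) × Bool
  V := Vx M
  hh := by
    have h1 : 0 < Fintype.card (Vx M) :=
      Fintype.card_pos_iff.mpr ⟨Quotient.mk _ ⟨1, by simp⟩⟩
    omega
  D := psD hp2 M hM hpM
  H := psH hp2 M hM hpM
  A n hn := AZ M n hM hn
  hT n hn x y := by
    have h1 := (source hp2 M hM hpM).choose_spec.choose_spec.1 n hn x y
    rw [Xp, AZ_X]
    exact h1
  hTV n hn l x y := by
    have h1 := (source hp2 M hM hpM).choose_spec.choose_spec.2.1 n hn l x y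
    rw [AZ_X]
    exact h1

end

open Classical in
/-- **The density of the class `(A, c)` at level `M`.** -/
def bet (M : ℕ) (A : Set Nat.Primes) (c : Nat.Primes → PadicAlgCl p) (n : ℕ) : ℝ :=
  if h : (p ≠ 2 ∧ M ≠ 0) ∧ 4 ∣ M ∧ ¬ p ∣ M then
    haveI : NeZero M := ⟨h.1.2⟩
    betS (psSrc h.1.1 M h.2.1 h.2.2) A c n
  else 0

theorem bet_eq (hp2 : p ≠ 2) (M : ℕ) [NeZero M] (hM : 4 ∣ M) (hpM : ¬ p ∣ M)
    (A : Set Nat.Primes) (c : Nat.Primes → PadicAlgCl p) :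
    bet M A c = betS (psSrc hp2 M hM hpM) A c := by
  funext n
  rw [bet, dif_pos ⟨⟨hp2, NeZero.ne M⟩, hM, hpM⟩]

theorem bet_nonneg (M : ℕ) (A : Set Nat.Primes) (c : Nat.Primes → PadicAlgCl p) (n : ℕ) :
    0 ≤ bet M A c n := by
  unfold bet
  split_ifs with h
  · exact betS_nonneg _ _ _ _
  · exact le_rfl

theorem bet_n (M : ℕ) (A : Set Nat.Primes) (c : Nat.Primes → PadicAlgCl p) (n : ℕ) :
    bet M A c (n + (p - 1)) = bet M A c n := by
  unfold bet
  split_ifs with h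
  · exact betS_n h.1.1 _ _ _ _
  · rfl

variable (j : algebraicClosure ℚ ℂ →+* PadicAlgCl p)

/-- **The counting functions of the cusp forms of level `M`, `4 ∣ M`.** -/
theorem apx_bet_of (hp2 : p ≠ 2) (M : ℕ) [NeZero M] (hM : 4 ∣ M) (hpM : ¬ p ∣ M)
    (hexc : FewExcStat (psD hp2 M hM hpM))
    {A : Set Nat.Primes} {c : Nat.Primes → PadicAlgCl p}
    (hA : ∀ q ∈ A, (q : ℕ) ≠ p) (hc : ∀ q ∈ A, ‖c q‖ ≤ 1) :
    Apx ((p : ℝ) + 1) (fun n x => (cnt j M (n + 2) A c x : ℝ))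
      (fun n => (tot j M (n + 2) A c : ℝ)) (bet M A c) := by
  rw [bet_eq hp2 M hM hpM]
  refine apx_of_src j (psSrc hp2 M hM hpM) hexc M (esBound M) 3 ?_ hA hc
  intro n hn hn3
  obtain ⟨r, hr, h1⟩ := Sys_Sym (M := M) hM hn hn3
  refine ⟨r, hr, ?_⟩
  rw [← h1, Sys_rhoS ℂ hM hn]
  rfl

end Gouvea.Fin
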