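import Pool.Agent.Work.MP_d3517d_nt.Fin.SrcApx
import Pool.Agent.Work.MP_d3517d_nt.PN.Lattice
import Pool.Agent.Work.MP_d3517d_nt.PN.Source

/-!
# The densities at the levels divisible by `9` (MP_d3517d_nt)

`bet9 M A c n`: the density of the systems of level `M` (`9 ∣ M`, `p ∤ M`) in the class
`(A, c)`, in the weights congruent to `n + 2` modulo `2 (p - 1)`.
-/

open MvPolynomial Gouvea.Sys Gouvea.ES Gouvea.PN

noncomputable section

namespace Gouvea.Fin

variable {p : ℕ} [Fact p.Prime]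

section

variable (M : ℕ) [NeZero M] (hM : 9 ∣ M) (hpM : ¬ p ∣ M)

/-- The data of level `M`. -/
def pnD : Dat p (2 * Fintype.card (Vx M)) (Vx (M * p) × Bool) (Vx M × Bool) :=
  (PN.source M hM hpM).choose

/-- The Hecke action on the data of level `M`. -/
def pnH : HRep (pnD M hM hpM) (HR0 p) := (PN.source M hM hpM).choose_spec.choose

theorem pnH_TE (n : ℕ) (hn : Even n) (r : {l : ℕ // l.Prime ∧ l ≠ p}) :
    (pnH M hM hpM).TE n hn (MvPolynomial.X r) = PS.bdg fun b => tE M p b n r.1 :=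
  (PN.source M hM hpM).choose_spec.choose_spec.2.2.2.2.2.2.1 n hn r

theorem pnH_twist (n : ℕ) (hn : Even n) (i j : ℕ) (r : {l : ℕ // l.Prime ∧ l ≠ p}) :
    (pnH M hM hpM).gr (n + 2 * j) (i + j) (MvPolynomial.X r) =
      (r.1 : ZMod p) ^ j • (pnH M hM hpM).gr n i (MvPolynomial.X r) :=
  (PN.source M hM hpM).choose_spec.choose_spec.2.2.2.2.2.2.2 n hn i j r

/-- The source of level `M`. -/
def pnSrc : Src p where
  h := 2 * Fintype.card (Vx M)
  E := Vx (M * p) × Bool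
  V := Vx M
  hh := by
    have h1 : 0 < Fintype.card (Vx M) := Fintype.card_pos_iff.mpr ⟨vx M 1⟩
    omega
  D := pnD M hM hpM
  H := pnH M hM hpM
  A n hn := AZ9 M n hM hn
  hT n hn x y := by
    have h1 := (PN.source M hM hpM).choose_spec.choose_spec.1 n hn x y
    rw [Xp, AZ9_X]
    exact h1
  hTV n hn l x y := by
    have h1 := (PN.source M hM hpM).choose_spec.choose_spec.2.1 n hn l x y
    rw [AZ9_X]
    exact h1

end

open Classical in
/-- **The density of the class `(A, c)` at level `M`, `9 ∣ M`.** -/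
def bet9 (M : ℕ) (A : Set Nat.Primes) (c : Nat.Primes → PadicAlgCl p) (n : ℕ) : ℝ :=
  if h : M ≠ 0 ∧ 9 ∣ M ∧ ¬ p ∣ M then
    haveI : NeZero M := ⟨h.1⟩
    betS (pnSrc M h.2.1 h.2.2) A c n
  else 0

theorem bet9_eq (M : ℕ) [NeZero M] (hM : 9 ∣ M) (hpM : ¬ p ∣ M)
    (A : Set Nat.Primes) (c : Nat.Primes → PadicAlgCl p) :
    bet9 M A c = betS (pnSrc M hM hpM) A c := by
  funext n
  rw [bet9, dif_pos ⟨NeZero.ne M, hM, hpM⟩]

theorem bet9_nonneg (M : ℕ) (A : Set Nat.Primes) (c : Nat.Primes → PadicAlgCl p) (n : ℕ) :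
    0 ≤ bet9 M A c n := by
  unfold bet9
  split_ifs with h
  · exact betS_nonneg _ _ _ _
  · exact le_rfl

theorem betS_two_n (S : Src p) (A : Set Nat.Primes) (c : Nat.Primes → PadicAlgCl p) (n : ℕ) :
    betS S A c (n + 2 * (p - 1)) = betS S A c n := by
  have h1 : Even (n + 2 * (p - 1)) ↔ Even n := by
    rw [Nat.even_add]
    simp
  have h2 : dens p (ddI S.H (Jc A c)) (n + 2 * (p - 1)) = dens p (ddI S.H (Jc A c)) n := by
    rw [two_mul, ← add_assoc, dens_n, dens_n]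
  unfold betS
  rw [h2]
  by_cases h3 : Good A c ∧ Even n
  · rw [if_pos h3, if_pos ⟨h3.1, h1.mpr h3.2⟩]
  · rw [if_neg h3, if_neg fun h4 => h3 ⟨h4.1, h1.mp h4.2⟩]

theorem bet9_n (M : ℕ) (A : Set Nat.Primes) (c : Nat.Primes → PadicAlgCl p) (n : ℕ) :
    bet9 M A c (n + 2 * (p - 1)) = bet9 M A c n := by
  unfold bet9
  split_ifs with h
  · exact betS_two_n _ _ _ _
  · rfl

variable (j : algebraicClosure ℚ ℂ →+* PadicAlgCl p)

/-- **The counting functions of the cusp forms of level `M`, `9 ∣ M`.** -/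
theorem apx_bet9_of (M : ℕ) [NeZero M] (hM : 9 ∣ M) (hpM : ¬ p ∣ M)
    (hexc : FewExcStat (pnD M hM hpM))
    {A : Set Nat.Primes} {c : Nat.Primes → PadicAlgCl p}
    (hA : ∀ q ∈ A, (q : ℕ) ≠ p) (hc : ∀ q ∈ A, ‖c q‖ ≤ 1) :
    Apx ((p : ℝ) + 1) (fun n x => (cnt j M (n + 2) A c x : ℝ))
      (fun n => (tot j M (n + 2) A c : ℝ)) (bet9 M A c) := by
  rw [bet9_eq M hM hpM]
  exact apx_of_src j (pnSrc M hM hpM) hexc M (PX.esBoundX M) 2
    (fun n hn hn2 => Sys_AZ9 hM hn hn2) hA hc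

end Gouvea.Fin
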