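import Pool.Agent.Work.MP_d3517d_nt.EndQ1
import Pool.Agent.Work.MP_d3517d_nt.Core
import Pool.Agent.Work.MP_d3517d_nt.Apx

/-!
# From approximately linear counts to the weak limit (MP_d3517d_nt, cell FIN)

* `Apx.nonneg`: a periodic density is nonnegative;
* `third_of_apx`: the last clause of `Q1` from the counting functions of the newforms in one class.
-/

open Filter Topology MeasureTheory UpperHalfPlane CongruenceSubgroup
open scoped MatrixGroups ModularForm ENNReal

noncomputable section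

namespace Gouvea

open scoped Classical in
/-- A set of density zero does not contain a progression. -/
theorem D0.exists_notMem {E : Set ℕ} (hE : D0 E) {P0 : ℕ} (hP0 : 0 < P0) (n K : ℕ) :
    ∃ k, K ≤ k ∧ n + P0 * k ∉ E := by
  by_contra hcon
  push Not at hcon
  unfold D0 at hE
  rw [Metric.tendsto_atTop] at hE
  obtain ⟨N0, hN0⟩ := hE (1 / (2 * P0 + 2)) (by positivity)
  -- the elements `n + P0 * k`, `K ≤ k < K + m`, are less than `n + P0 * (K + m)`
  obtain ⟨m, hm1, hm2⟩ : ∃ m : ℕ, N0 ≤ n + P0 * (K + m) ∧ n + P0 * K ≤ m := by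
    refine ⟨N0 + n + P0 * K, ?_, by omega⟩
    have : N0 + n + P0 * K ≤ P0 * (K + (N0 + n + P0 * K)) := by
      calc N0 + n + P0 * K ≤ K + (N0 + n + P0 * K) := by omega
        _ ≤ P0 * (K + (N0 + n + P0 * K)) := Nat.le_mul_of_pos_left _ hP0
    omega
  have h1 := hN0 _ hm1
  have hcard : m ≤ ({i ∈ Finset.range (n + P0 * (K + m)) | i ∈ E} : Finset ℕ).card := by
    have h2 : ((Finset.range m).image fun i => n + P0 * (K + i)) ⊆
        ({i ∈ Finset.range (n + P0 * (K + m)) | i ∈ E} : Finset ℕ) := by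
      intro x hx
      obtain ⟨i, hi, rfl⟩ := Finset.mem_image.1 hx
      rw [Finset.mem_filter, Finset.mem_range]
      have hi' := Finset.mem_range.1 hi
      refine ⟨?_, hcon _ (by omega)⟩
      have : P0 * (K + i) < P0 * (K + m) := Nat.mul_lt_mul_of_pos_left (by omega) hP0
      omega
    have h3 := Finset.card_le_card h2
    rw [Finset.card_image_of_injective, Finset.card_range] at h3
    · exact h3
    · intro a b hab
      have h4 : P0 * (K + a) = P0 * (K + b) := by
        have : n + P0 * (K + a) = n + P0 * (K + b) := hab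
        omega
      have := Nat.eq_of_mul_eq_mul_left hP0 h4
      omega
  have hpos : (0 : ℝ) < ((n + P0 * (K + m) : ℕ) : ℝ) := by
    rcases Nat.eq_zero_or_pos (n + P0 * (K + m)) with h0 | h0
    · rw [h0] at h1
      have hm0 : m = 0 := by
        rcases Nat.eq_zero_or_pos m with h | h
        · exact h
        · have : 0 < P0 * (K + m) := Nat.mul_pos hP0 (by omega)
          omega
      exfalso
      -- enlarge: impossible only if everything is zero; then use `N0 + 1`
      have hn0 : n = 0 := by omega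
      have hK0 : K = 0 := by
        rcases Nat.eq_zero_or_pos K with h | h
        · exact h
        · have : 0 < P0 * (K + m) := Nat.mul_pos hP0 (by omega)
          omega
      subst hn0 hK0
      have h5 := hN0 (P0 * (N0 + 1)) (by
        calc N0 ≤ N0 + 1 := by omega
          _ ≤ P0 * (N0 + 1) := Nat.le_mul_of_pos_left _ hP0)
      have h6 : N0 + 1 ≤ ({i ∈ Finset.range (P0 * (N0 + 1)) | i ∈ E} : Finset ℕ).card := by
        have h2 : ((Finset.range (N0 + 1)).image fun i => P0 * i) ⊆
            ({i ∈ Finset.range (P0 * (N0 + 1)) | i ∈ E} : Finset ℕ) := by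
          intro x hx
          obtain ⟨i, hi, rfl⟩ := Finset.mem_image.1 hx
          rw [Finset.mem_filter, Finset.mem_range]
          have hi' := Finset.mem_range.1 hi
          refine ⟨Nat.mul_lt_mul_of_pos_left hi' hP0, ?_⟩
          have := hcon i (Nat.zero_le _)
          simpa using this
        have h3 := Finset.card_le_card h2
        rwa [Finset.card_image_of_injective _ (fun a b hab =>
          Nat.eq_of_mul_eq_mul_left hP0 hab), Finset.card_range] at h3
      rw [Real.dist_eq, sub_zero, abs_of_nonneg (by positivity)] at h5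
      have hpos : (0 : ℝ) < ((P0 * (N0 + 1) : ℕ) : ℝ) := by
        exact_mod_cast Nat.mul_pos hP0 (Nat.succ_pos _)
      rw [div_lt_iff₀ hpos] at h5
      have h7 : ((N0 + 1 : ℕ) : ℝ) ≤ (({i ∈ Finset.range (P0 * (N0 + 1)) | i ∈ E} :
        Finset ℕ).card : ℝ) := by exact_mod_cast h6
      have hP0' : (1 : ℝ) ≤ P0 := by exact_mod_cast hP0
      have h8 : (1 : ℝ) / (2 * P0 + 2) * ((P0 * (N0 + 1) : ℕ) : ℝ) ≤ ((N0 + 1 : ℕ) : ℝ) / 2 := by
        push_cast
        rw [div_mul_eq_mul_div, one_mul, div_le_div_iff₀ (by positivity) (by norm_num)]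
        have : (0 : ℝ) ≤ (N0 : ℝ) + 1 := by positivity
        nlinarith
      have h9 : (0 : ℝ) < ((N0 + 1 : ℕ) : ℝ) := by positivity
      linarith
    · exact_mod_cast h0
  rw [Real.dist_eq, sub_zero, abs_of_nonneg (by positivity), div_lt_iff₀ hpos] at h1
  have h2 : (m : ℝ) ≤ (({i ∈ Finset.range (n + P0 * (K + m)) | i ∈ E} : Finset ℕ).card : ℝ) := by
    exact_mod_cast hcard
  have h3 : ((n + P0 * (K + m) : ℕ) : ℝ) ≤ (P0 + 1) * m := by
    have hm2' : ((n + P0 * K : ℕ) : ℝ) ≤ m := by exact_mod_cast hm2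
    push_cast at hm2' ⊢
    nlinarith
  have h4 : (1 : ℝ) / (2 * P0 + 2) * ((n + P0 * (K + m) : ℕ) : ℝ) ≤ m / 2 := by
    rw [div_mul_eq_mul_div, one_mul, div_le_div_iff₀ (by positivity) (by norm_num)]
    nlinarith
  have h5 : (0 : ℝ) ≤ m := by positivity
  rcases h5.eq_or_lt with h0 | h0
  · have h6 : (1 : ℝ) / (2 * P0 + 2) * ((n + P0 * (K + m) : ℕ) : ℝ) ≤ 0 := by
      rw [← h0] at h4
      simpa using h4
    have h7 : (0 : ℝ) ≤ (({i ∈ Finset.range (n + P0 * (K + m)) | i ∈ E} : Finset ℕ).card : ℝ) := by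
      positivity
    linarith
  · linarith

namespace Apx

variable {P : ℝ} {F : ℕ → ℝ → ℝ} {G β : ℕ → ℝ}

/-- **A periodic density is nonnegative.** -/
theorem nonneg (hP : 0 < P) (h : Apx P F G β) {P0 : ℕ} (hP0 : 0 < P0)
    (hper : ∀ n, β (n + P0) = β n) (hG : ∀ n, 0 ≤ G n) (n : ℕ) : 0 ≤ β n := by
  by_contra hcon
  push Not at hcon
  obtain ⟨E, hE, hE'⟩ := h (-β n / (4 * P)) (by
    apply div_pos
    · linarith
    · linarith)
  obtain ⟨k, hk, hkE⟩ := hE.exists_notMem hP0 n 1
  have hβ : ∀ k, β (n + P0 * k) = β n := by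
    intro k
    induction k with
    | zero => simp
    | succ k ih => rw [← ih, show n + P0 * (k + 1) = n + P0 * k + P0 by ring, hper]
  obtain ⟨-, h2⟩ := hE' _ hkE
  rw [hβ k] at h2
  have h3 := (abs_le.1 h2).2
  have h4 := hG (n + P0 * k)
  have h5 : (1 : ℝ) ≤ ((n + P0 * k : ℕ) : ℝ) := by
    have : 1 ≤ n + P0 * k := by
      have := Nat.mul_pos hP0 (show 0 < k by omega)
      omega
    exact_mod_cast this
  generalize hx : ((n + P0 * k : ℕ) : ℝ) = x at h3 h5
  have h6 : -β n * (x / P) ≤ -β n / (4 * P) * (x + 1) := by linarith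
  have h7 : -β n / (4 * P) * (x + 1) = (-β n / P) * ((x + 1) / 4) := by
    field_simp
  have h8 : -β n * (x / P) = (-β n / P) * x := by ring
  rw [h7, h8] at h6
  have h9 : 0 < -β n / P := div_pos (by linarith) hP
  have h10 := le_of_mul_le_mul_left h6 h9
  linarith

/-- two periodic densities of the same counting function agree -/
theorem unique (hP : 0 < P) {β' : ℕ → ℝ} (h : Apx P F G β) (h' : Apx P F G β') {P0 : ℕ}
    (hP0 : 0 < P0) (hper : ∀ n, β (n + P0) = β n) (hper' : ∀ n, β' (n + P0) = β' n) (n : ℕ) :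
    β n = β' n := by
  have h1 := (h.smul (-1)).add h'
  have h2 := (h'.smul (-1)).add h
  have h3 := h1.nonneg hP hP0 (fun n => by simp only [hper, hper']) (fun n => by simp) n
  have h4 := h2.nonneg hP hP0 (fun n => by simp only [hper, hper']) (fun n => by simp) n
  linarith

end Apx

variable {p : ℕ} [Fact p.Prime]

section

variable {N : ℕ} {j : algebraicClosure ℚ ℂ →+* PadicAlgCl p} {f₀ : ℍ → ℂ}

/-- a periodic function is bounded -/
theorem exists_bound_of_periodic {β : ℕ → ℝ} {P0 : ℕ} (hP0 : 0 < P0)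
    (hper : ∀ n, β (n + P0) = β n) : ∃ B, ∀ n, β n ≤ B := by
  refine ⟨∑ m ∈ Finset.range P0, |β m|, fun n => ?_⟩
  have hβ : ∀ n k, β (n + P0 * k) = β n := by
    intro n k
    induction k with
    | zero => simp
    | succ k ih => rw [← ih, show n + P0 * (k + 1) = n + P0 * k + P0 by ring, hper]
  have h1 : β n = β (n % P0) := by
    conv_lhs => rw [← Nat.mod_add_div n P0]
    exact hβ _ _
  rw [h1]
  exact (le_abs_self _).trans (Finset.single_le_sum (f := fun m => |β m|)
    (fun m _ => abs_nonneg _) (Finset.mem_range.2 (Nat.mod_lt _ hP0)))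

/-- **The last clause of `Q1` from the counting functions of the newforms in one class.** -/
theorem third_of_apx (hfin : ∀ k, (cls p N j f₀ k).Finite) {β : ℕ → ℝ} {C : ℝ} {P0 : ℕ}
    (hP0 : 0 < P0) (hper : ∀ n, β (n + P0) = β n) {n0 : ℕ} (hpos : 0 < β n0)
    (hS : ∀ n, ((clsM p N j f₀ hfin (n + 2)).card : ℝ) ≤ C * (n + 1))
    (h : Apx ((p : ℝ) + 1)
      (fun n x => ((clsM p N j f₀ hfin (n + 2)).countP (fun v => v ≤ ENNReal.ofReal x) : ℝ))
      (fun n => ((clsM p N j f₀ hfin (n + 2)).card : ℝ)) β) :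
    (∀ T, (xT p N j f₀ T).Finite) ∧
    ∃ (μ : ℕ → ProbabilityMeasure ℝ≥0∞) (ν : ProbabilityMeasure ℝ≥0∞),
      (∀ᶠ T in atTop, (μ T : Measure ℝ≥0∞) = unifT p N j f₀ T) ∧
      (ν : Measure ℝ≥0∞) = (volume.restrict (Set.Icc (0 : ℝ) 1)).map ENNReal.ofReal ∧
      Tendsto μ atTop (𝓝 ν) := by
  have hP : (0 : ℝ) < (p : ℝ) + 1 := by positivity
  have hβ0 : ∀ n, 0 ≤ β n := h.nonneg hP hP0 hper fun n => by positivity
  have hβk : ∀ k, β (n0 + P0 * k) = β n0 := by
    intro k
    induction k with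
    | zero => simp
    | succ k ih => rw [← ih, show n0 + P0 * (k + 1) = n0 + P0 * k + P0 by ring, hper]
  obtain ⟨B, hB⟩ := exists_bound_of_periodic hP0 hper
  obtain ⟨c, hc, hcs⟩ := sum_ge_of_progression hβ0 hpos hP0 fun k => (hβk k).ge
  exact third_of_counts hfin hβ0 hB hc hcs hS h

end

end Gouvea
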