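import Pool.Agent.Work.MP_d3517d_nt.ES.DescCount

/-!
# The descent formula with a weight function on the residue field (MP_d3517d_nt, cell FIN)
-/

set_option autoImplicit false

noncomputable section

namespace Gouvea.Desc

open Gouvea.Sys

variable {K : Type*} [Field K] [IsAlgClosed K] {kap : Type*} [Field kap] (O : Subring K)
  (red : O →+* kap) {iota : Type*} [DecidableEq iota] (i0 : iota)

theorem rd_add {x y : K} (hx : x ∈ O) (hy : y ∈ O) :
    rd O red (x + y) = rd O red x + rd O red y := by
  rw [rd, rd, rd, dif_pos hx, dif_pos hy, dif_pos (O.add_mem hx hy), ← map_add]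
  rfl

/-- **the descent formula with weights**: `w` is a function on the residue field which vanishes at
`0` and at the square roots of `d`, and `W (a + b) = w a + w b` if `a b = l d`. -/
theorem msum_desc_w (d l : ℤ) (w W : kap → ℝ) (hw0 : w 0 = 0)
    (hwd : ∀ s : kap, s ^ 2 = (d : kap) → w s = 0)
    (hW : ∀ a b : kap, a * b = ((l * d : ℤ) : kap) → w a + w b = W (a + b))
    (S1 S2 S4 rest1 rest2 : Multiset (MvPolynomial iota ℤ →+* K))
    (hS4 : S4 = S2 + rest1) (hS2 : S2 = S1.bind (two i0 ((l * d : ℤ) : K)) + rest2)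
    (h1 : ∀ chi ∈ rest1, chi (MvPolynomial.X i0) = 0)
    (h2 : ∀ chi ∈ rest2, chi (MvPolynomial.X i0) ^ 2 = (d : K))
    (hO : ∀ chi ∈ S4, chi (MvPolynomial.X i0) ∈ O)
    (P : (MvPolynomial iota ℤ →+* K) → Prop) (hP : ∀ chi a, P (repl i0 chi a) ↔ P chi)
    (F : (MvPolynomial iota ℤ →+* K) → ℝ) (hF : ∀ chi a, F (repl i0 chi a) = F chi) :
    msum S1 P (fun chi => W (rd O red (chi (MvPolynomial.X i0))) * F chi) =
      msum S4 P (fun chi => w (rd O red (chi (MvPolynomial.X i0))) * F chi) := by
  classical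
  have hO2 : ∀ chi ∈ rest2, chi (MvPolynomial.X i0) ∈ O := fun chi hchi => hO chi (by
    rw [hS4, hS2]
    exact Multiset.mem_add.2 (Or.inl (Multiset.mem_add.2 (Or.inr hchi))))
  have e1 : msum rest1 P (fun chi => w (rd O red (chi (MvPolynomial.X i0))) * F chi) = 0 :=
    msum_zero_of _ _ _ fun chi hchi => by rw [h1 chi hchi, rd_zero, hw0, zero_mul]
  have e2 : msum rest2 P (fun chi => w (rd O red (chi (MvPolynomial.X i0))) * F chi) = 0 := by
    refine msum_zero_of _ _ _ fun chi hchi => ?_
    rw [hwd _ (by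
      rw [pow_two, ← rd_mul O red (hO2 chi hchi) (hO2 chi hchi), ← pow_two, h2 chi hchi, rd_int]),
      zero_mul]
  rw [hS4, hS2, msum_add, msum_add, e1, e2, add_zero, add_zero, msum_bind, msum_eq_ite]
  congr 1
  apply Multiset.map_congr rfl
  intro chi hchi
  obtain ⟨a, b, hab, hc⟩ := exists_ab (chi (MvPolynomial.X i0)) ((l * d : ℤ) : K)
  have htwo := two_eq i0 ((l * d : ℤ) : K) chi a b hab hc
  have hmem : ∀ x : K, repl i0 chi x ∈ two i0 ((l * d : ℤ) : K) chi → x ∈ O := by
    intro x hx
    have h3 := hO (repl i0 chi x) (by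
      rw [hS4, hS2]
      exact Multiset.mem_add.2 (Or.inl (Multiset.mem_add.2 (Or.inl
        (Multiset.mem_bind.2 ⟨chi, hchi, hx⟩)))))
    rwa [repl_same] at h3
  have haO : a ∈ O := hmem a (by rw [htwo]; simp)
  have hbO : b ∈ O := hmem b (by rw [htwo]; simp)
  rw [htwo, msum_eq_ite]
  simp only [Multiset.insert_eq_cons, Multiset.map_cons, Multiset.map_singleton,
    Multiset.sum_cons, Multiset.sum_singleton, hP, hF, repl_same]
  have h4 : w (rd O red a) + w (rd O red b) = W (rd O red (chi (MvPolynomial.X i0))) := by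
    rw [← hab, rd_add O red haO hbO]
    apply hW
    rw [← rd_mul O red haO hbO, hc, rd_int]
  by_cases hPc : P chi
  · simp only [if_pos hPc]
    rw [← add_mul, h4]
  · simp only [if_neg hPc, add_zero]

open scoped Classical in
/-- The weights for one residue class: `α` is a root of `X² - t₀ X + l d`, `α ≠ 0`, `α² ≠ d`. -/
theorem msum_desc_at (d l : ℤ) (α t₀ : kap) (hα : α ^ 2 - t₀ * α + ((l * d : ℤ) : kap) = 0)
    (hα0 : α ≠ 0) (hαd : α ^ 2 ≠ (d : kap))
    (S1 S2 S4 rest1 rest2 : Multiset (MvPolynomial iota ℤ →+* K))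
    (hS4 : S4 = S2 + rest1) (hS2 : S2 = S1.bind (two i0 ((l * d : ℤ) : K)) + rest2)
    (h1 : ∀ chi ∈ rest1, chi (MvPolynomial.X i0) = 0)
    (h2 : ∀ chi ∈ rest2, chi (MvPolynomial.X i0) ^ 2 = (d : K))
    (hO : ∀ chi ∈ S4, chi (MvPolynomial.X i0) ∈ O)
    (P : (MvPolynomial iota ℤ →+* K) → Prop) (hP : ∀ chi a, P (repl i0 chi a) ↔ P chi)
    (F : (MvPolynomial iota ℤ →+* K) → ℝ) (hF : ∀ chi a, F (repl i0 chi a) = F chi) :
    (if t₀ = 2 * α then 2 else 1) *
      msum S1 (fun chi => P chi ∧ rd O red (chi (MvPolynomial.X i0)) = t₀) F =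
      msum S4 (fun chi => P chi ∧ rd O red (chi (MvPolynomial.X i0)) = α) F := by
  have key := msum_desc_w O red i0 d l (fun s => if s = α then 1 else 0)
    (fun t => (if t₀ = 2 * α then 2 else 1) * (if t = t₀ then 1 else 0))
    (if_neg (Ne.symm hα0)) (fun s hs => if_neg (fun h => hαd (by rw [← h, hs])))
    (fun a b hab => by
      by_cases ht : a + b = t₀
      · rw [if_pos ht, mul_one]
        have h3 : (α - a) * (α - b) = 0 := by
          rw [← ht, ← hab] at hα
          linear_combination hα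
        by_cases h5 : t₀ = 2 * α
        · rw [if_pos h5]
          have ha : a = α := by
            rcases mul_eq_zero.1 h3 with h | h
            · exact (sub_eq_zero.1 h).symm
            · have hb : b = α := (sub_eq_zero.1 h).symm
              rw [hb, h5] at ht
              linear_combination ht
          have hb : b = α := by
            rw [ha, h5] at ht
            linear_combination ht
          rw [if_pos ha, if_pos hb]
          norm_num
        · rw [if_neg h5]
          rcases mul_eq_zero.1 h3 with h | h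
          · have ha : a = α := (sub_eq_zero.1 h).symm
            rw [if_pos ha, if_neg, add_zero]
            intro hb
            apply h5
            rw [← ht, ha, hb]
            ring
          · have hb : b = α := (sub_eq_zero.1 h).symm
            rw [if_pos hb, if_neg, zero_add]
            intro ha
            apply h5
            rw [← ht, ha, hb]
            ring
      · rw [if_neg ht, mul_zero]
        have hna : a ≠ α := by
          rintro rfl
          apply ht
          have h4 : a * (a + b - t₀) = 0 := by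
            rw [← hab] at hα
            linear_combination hα
          exact sub_eq_zero.1 ((mul_eq_zero.1 h4).resolve_left hα0)
        have hnb : b ≠ α := by
          rintro rfl
          apply ht
          have h4 : b * (a + b - t₀) = 0 := by
            rw [← hab] at hα
            linear_combination hα
          exact sub_eq_zero.1 ((mul_eq_zero.1 h4).resolve_left hα0)
        rw [if_neg hna, if_neg hnb, add_zero])
    S1 S2 S4 rest1 rest2 hS4 hS2 h1 h2 hO P hP F hF
  have conv : ∀ (S : Multiset (MvPolynomial iota ℤ →+* K)) (c : ℝ) (s : kap),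
      msum S P (fun chi => (c * if rd O red (chi (MvPolynomial.X i0)) = s then 1 else 0) * F chi) =
      c * msum S (fun chi => P chi ∧ rd O red (chi (MvPolynomial.X i0)) = s) F := by
    intro S c s
    rw [msum_eq_ite, msum_eq_ite, ← Multiset.sum_map_mul_left]
    congr 1
    apply Multiset.map_congr rfl
    intro chi _
    by_cases hPc : P chi <;> by_cases hs : rd O red (chi (MvPolynomial.X i0)) = s <;>
      simp [hPc, hs]
  have e1 := conv S1 (if t₀ = 2 * α then 2 else 1) t₀
  have e2 := conv S4 1 α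
  rw [one_mul] at e2
  rw [← e1, ← e2]
  simpa only [one_mul] using key

end Gouvea.Desc

namespace Gouvea.ES

open Gouvea.Sys Gouvea.Desc

variable {kap : Type*} [Field kap] (O : Subring ℂ) (red : O →+* kap)

open scoped Classical in
/-- **counting the systems of level `M` in one class by one class at level `M l²`, `l ∤ M`** -/
theorem count_at (M k : ℕ) [NeZero M] (l : Nat.Primes) (hlM : ¬ (l : ℕ) ∣ M) (hk : 2 ≤ k)
    (hO : ∀ chi ∈ Sys (rhoC (M * l * l) k), chi (MvPolynomial.X l) ∈ O)
    (α t₀ : kap) (hα : α ^ 2 - t₀ * α + ((l : ℕ) : kap) ^ (k - 1) = 0)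
    (hα0 : α ≠ 0) (hαd : α ^ 2 ≠ ((l : ℕ) : kap) ^ (k - 2))
    (P : (MvPolynomial Nat.Primes ℤ →+* ℂ) → Prop) (hP : ∀ chi a, P (repl l chi a) ↔ P chi)
    (F : (MvPolynomial Nat.Primes ℤ →+* ℂ) → ℝ) (hF : ∀ chi a, F (repl l chi a) = F chi) :
    (if t₀ = 2 * α then 2 else 1) *
      msum (Sys (rhoC M k)) (fun chi => P chi ∧ rd O red (chi (MvPolynomial.X l)) = t₀) F =
      msum (Sys (rhoC (M * l * l) k))
        (fun chi => P chi ∧ rd O red (chi (MvPolynomial.X l)) = α) F := by
  obtain ⟨rest1, h1, h1'⟩ := Sys_cusp_ram (M * l) k l (Dvd.intro_left M rfl)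
  obtain ⟨rest2, h2, h2'⟩ := Sys_cusp_unram M k l hlM hk
  have e1 : (((l : ℕ) : ℤ) ^ (k - 1) : ℤ) = ((l : ℕ) : ℤ) * ((l : ℕ) : ℤ) ^ (k - 2) := by
    rw [← pow_succ']
    congr 1
    omega
  have e2 : ((l : ℕ) : kap) ^ (k - 1) =
      ((((l : ℕ) : ℤ) * ((l : ℕ) : ℤ) ^ (k - 2) : ℤ) : kap) := by
    rw [← e1]
    push_cast
    rfl
  rw [e1] at h2
  rw [e2] at hα
  refine msum_desc_at O red l (((l : ℕ) : ℤ) ^ (k - 2)) ((l : ℕ) : ℤ) α t₀ hα hα0 ?_
    _ _ _ rest1 rest2 h1 h2 h1' h2' hO P hP F hF
  push_cast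
  exact hαd

end Gouvea.ES
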