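import Pool.Agent.Work.MP_d3517d_nt.ES.DescCount
import Pool.Agent.Work.MP_d3517d_nt.Fin.Defs
import Pool.Agent.Work.MP_d3517d_nt.Sys.Galois

/-!
# The residue field, and conditions on the eigenvalue at one prime (MP_d3517d_nt, cell FIN)
-/

open MvPolynomial
open scoped ENNReal NNReal

noncomputable section

namespace Gouvea.Fin

open Gouvea.Sys Gouvea.ES Gouvea.Desc

variable {p : ℕ} [Fact p.Prime] (j : algebraicClosure ℚ ℂ →+* PadicAlgCl p)

/-! ### `emb` on algebraic numbers -/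

theorem emb_of_mem {z : ℂ} (h : z ∈ algebraicClosure ℚ ℂ) : emb p j z = j ⟨z, h⟩ := dif_pos h

theorem emb_of_not_mem {z : ℂ} (h : z ∉ algebraicClosure ℚ ℂ) : emb p j z = 0 := dif_neg h

theorem mem_alg_of_isIntegral {z : ℂ} (h : IsIntegral ℤ z) : z ∈ algebraicClosure ℚ ℂ := by
  rw [mem_algebraicClosure_iff']
  exact h.tower_top

theorem emb_add {z w : ℂ} (hz : z ∈ algebraicClosure ℚ ℂ) (hw : w ∈ algebraicClosure ℚ ℂ) :
    emb p j (z + w) = emb p j z + emb p j w := by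
  rw [emb_of_mem j hz, emb_of_mem j hw, emb_of_mem j (add_mem hz hw), ← map_add]
  rfl

theorem emb_mul {z w : ℂ} (hz : z ∈ algebraicClosure ℚ ℂ) (hw : w ∈ algebraicClosure ℚ ℂ) :
    emb p j (z * w) = emb p j z * emb p j w := by
  rw [emb_of_mem j hz, emb_of_mem j hw, emb_of_mem j (mul_mem hz hw), ← map_mul]
  rfl

theorem emb_intCast (n : ℤ) : emb p j (n : ℂ) = n := by
  rw [emb_of_mem j (intCast_mem _ n)]
  have : (⟨(n : ℂ), intCast_mem _ n⟩ : algebraicClosure ℚ ℂ) = (n : algebraicClosure ℚ ℂ) :=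
    Subtype.ext (by simp)
  rw [this, map_intCast]

theorem emb_neg {z : ℂ} (hz : z ∈ algebraicClosure ℚ ℂ) : emb p j (-z) = -emb p j z := by
  rw [emb_of_mem j hz, emb_of_mem j (neg_mem hz), ← map_neg]
  rfl

/-! ### The residue field -/

/-- the valuation ring -/
abbrev VR (p : ℕ) [Fact p.Prime] : ValuationSubring (PadicAlgCl p) :=
  (Valued.v : Valuation (PadicAlgCl p) ℝ≥0).valuationSubring

/-- the residue field -/
abbrev kap (p : ℕ) [Fact p.Prime] : Type := IsLocalRing.ResidueField (VR p)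

theorem mem_VR {x : PadicAlgCl p} : x ∈ VR p ↔ ‖x‖ ≤ 1 := by
  rw [Valuation.mem_valuationSubring_iff]
  rfl

open scoped Classical in
/-- the residue class of an integral element of `\bar ℚ_p` -/
def rs (x : PadicAlgCl p) : kap p :=
  if h : x ∈ VR p then IsLocalRing.residue (VR p) ⟨x, h⟩ else 0

theorem rs_of {x : PadicAlgCl p} (h : ‖x‖ ≤ 1) :
    rs x = IsLocalRing.residue (VR p) ⟨x, mem_VR.2 h⟩ := dif_pos (mem_VR.2 h)

theorem rs_eq_iff {x y : PadicAlgCl p} (hx : ‖x‖ ≤ 1) (hy : ‖y‖ ≤ 1) :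
    rs x = rs y ↔ ‖x - y‖ < 1 := by
  rw [rs_of hx, rs_of hy, ← sub_eq_zero, ← map_sub, IsLocalRing.residue_eq_zero_iff,
    Valuation.mem_maximalIdeal_iff]
  have : ((⟨x, mem_VR.2 hx⟩ - ⟨y, mem_VR.2 hy⟩ : VR p) : PadicAlgCl p) = x - y := rfl
  rw [this]
  rfl

theorem rs_add {x y : PadicAlgCl p} (hx : ‖x‖ ≤ 1) (hy : ‖y‖ ≤ 1) :
    rs (x + y) = rs x + rs y := by
  rw [rs_of hx, rs_of hy, rs_of (norm_add_le_one hx hy), ← map_add]
  rfl

theorem rs_neg {x : PadicAlgCl p} (hx : ‖x‖ ≤ 1) : rs (-x) = -rs x := by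
  rw [rs_of hx, rs_of (by rwa [norm_neg]), ← map_neg]
  rfl

theorem norm_mul_le_one {x y : PadicAlgCl p} (hx : ‖x‖ ≤ 1) (hy : ‖y‖ ≤ 1) : ‖x * y‖ ≤ 1 := by
  rw [norm_mul]
  exact mul_le_one₀ hx (norm_nonneg _) hy

theorem rs_mul {x y : PadicAlgCl p} (hx : ‖x‖ ≤ 1) (hy : ‖y‖ ≤ 1) :
    rs (x * y) = rs x * rs y := by
  rw [rs_of hx, rs_of hy, rs_of (norm_mul_le_one hx hy), ← map_mul]
  rfl

theorem rs_int (n : ℤ) : rs (n : PadicAlgCl p) = n := by
  rw [rs_of (norm_int_le n)]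
  have : (⟨(n : PadicAlgCl p), mem_VR.2 (norm_int_le n)⟩ : VR p) = (n : VR p) :=
    Subtype.ext (by simp)
  rw [this, map_intCast]

theorem rs_zero : rs (0 : PadicAlgCl p) = 0 := by
  have := rs_int (p := p) 0
  simpa using this

theorem rs_one : rs (1 : PadicAlgCl p) = 1 := by
  have := rs_int (p := p) 1
  simpa using this

theorem rs_pow {x : PadicAlgCl p} (hx : ‖x‖ ≤ 1) (n : ℕ) : rs (x ^ n) = rs x ^ n := by
  induction n with
  | zero => simp [rs_one]
  | succ n ih =>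
    have h : ‖x ^ n‖ ≤ 1 := by
      rw [norm_pow]
      exact pow_le_one₀ (norm_nonneg _) hx
    rw [pow_succ, pow_succ, rs_mul h hx, ih]

instance charP_kap : CharP (kap p) p := by
  have h : ((p : ℕ) : kap p) = 0 := by
    have h1 := rs_int (p := p) (p : ℤ)
    have h2 : rs (((p : ℤ) : PadicAlgCl p)) = rs (0 : PadicAlgCl p) := by
      rw [rs_eq_iff (norm_int_le _) (by simp)]
      rw [sub_zero]
      push_cast
      exact norm_p_lt
    rw [h2, rs_zero] at h1
    push_cast at h1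
    exact h1.symm
  exact (CharP.charP_iff_prime_eq_zero (Fact.out : p.Prime)).mpr h

theorem nat_ne_zero {m : ℕ} (h : ¬ p ∣ m) : (m : kap p) ≠ 0 := by
  intro h0
  exact h ((CharP.cast_eq_zero_iff (kap p) p m).1 h0)

theorem two_ne (hp : 3 ≤ p) : (2 : kap p) ≠ 0 := by
  have := nat_ne_zero (p := p) (m := 2) (fun h => by
    have := Nat.le_of_dvd (by norm_num) h
    omega)
  simpa using this

theorem three_ne (hp : 5 ≤ p) : (3 : kap p) ≠ 0 := by
  have := nat_ne_zero (p := p) (m := 3) (fun h => by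
    have := Nat.le_of_dvd (by norm_num) h
    omega)
  simpa using this

/-- Fermat: `2 ^ n` depends on `n` modulo `p - 1` -/
theorem two_pow_mod (hp : 3 ≤ p) (n k : ℕ) :
    (2 : kap p) ^ (n + k) = 2 ^ (n % (p - 1) + k) := by
  have h1 : ((2 : ZMod p)) ^ (p - 1) = 1 := by
    apply ZMod.pow_card_sub_one_eq_one
    intro h
    have h2 : ((2 : ℕ) : ZMod p) = 0 := by simpa using h
    rw [ZMod.natCast_eq_zero_iff] at h2
    have := Nat.le_of_dvd (by norm_num) h2
    omega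
  have h2 : (2 : kap p) ^ (p - 1) = 1 := by
    have := congrArg (ZMod.castHom (dvd_refl p) (kap p)) h1
    rwa [map_pow, map_one, map_ofNat] at this
  conv_lhs => rw [← Nat.mod_add_div n (p - 1)]
  rw [show n % (p - 1) + (p - 1) * (n / (p - 1)) + k =
    (p - 1) * (n / (p - 1)) + (n % (p - 1) + k) by ring, pow_add, pow_mul, h2, one_pow, one_mul]

/-! ### The ring of algebraic numbers which are integral at `j` -/

/-- the algebraic numbers with `‖j z‖ ≤ 1` -/
def OC : Subring ℂ where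
  carrier := {z | z ∈ algebraicClosure ℚ ℂ ∧ ‖emb p j z‖ ≤ 1}
  mul_mem' := by
    rintro a b ⟨ha, ha'⟩ ⟨hb, hb'⟩
    refine ⟨mul_mem ha hb, ?_⟩
    rw [emb_mul j ha hb]
    exact norm_mul_le_one ha' hb'
  one_mem' := by
    refine ⟨one_mem _, ?_⟩
    have := emb_intCast j 1
    rw [Int.cast_one, Int.cast_one] at this
    rw [this, norm_one]
  add_mem' := by
    rintro a b ⟨ha, ha'⟩ ⟨hb, hb'⟩
    refine ⟨add_mem ha hb, ?_⟩
    rw [emb_add j ha hb]
    exact norm_add_le_one ha' hb'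
  zero_mem' := by
    refine ⟨zero_mem _, ?_⟩
    have := emb_intCast j 0
    rw [Int.cast_zero, Int.cast_zero] at this
    rw [this, norm_zero]
    exact zero_le_one
  neg_mem' := by
    rintro a ⟨ha, ha'⟩
    refine ⟨neg_mem ha, ?_⟩
    rw [emb_neg j ha, norm_neg]
    exact ha'

theorem mem_OC {z : ℂ} : z ∈ OC j ↔ z ∈ algebraicClosure ℚ ℂ ∧ ‖emb p j z‖ ≤ 1 := Iff.rfl

/-- reduction -/
def red : OC j →+* kap p where
  toFun z := rs (emb p j z)
  map_one' := by
    have := emb_intCast j 1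
    rw [Int.cast_one, Int.cast_one] at this
    change rs (emb p j (1 : ℂ)) = 1
    rw [this, rs_one]
  map_mul' a b := by
    change rs (emb p j ((a : ℂ) * b)) = _
    rw [emb_mul j a.2.1 b.2.1, rs_mul a.2.2 b.2.2]
  map_zero' := by
    have := emb_intCast j 0
    rw [Int.cast_zero, Int.cast_zero] at this
    change rs (emb p j (0 : ℂ)) = 0
    rw [this, rs_zero]
  map_add' a b := by
    change rs (emb p j ((a : ℂ) + b)) = _
    rw [emb_add j a.2.1 b.2.1, rs_add a.2.2 b.2.2]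

theorem rd_eq {z : ℂ} (h : z ∈ OC j) : rd (OC j) (red j) z = rs (emb p j z) := by
  rw [rd, dif_pos h]
  rfl

theorem norm_emb_le {z : ℂ} (h : IsIntegral ℤ z) : ‖emb p j z‖ ≤ 1 := by
  have hz := mem_alg_of_isIntegral h
  have h1 : IsIntegral ℤ (emb p j z) := by
    rw [emb_of_mem j hz]
    have h2 : IsIntegral ℤ (⟨z, hz⟩ : algebraicClosure ℚ ℂ) := by
      rw [← isIntegral_algHom_iff ((algebraicClosure ℚ ℂ).val.restrictScalars ℤ)
        Subtype.val_injective]
      exact h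
    exact h2.map (j.toIntAlgHom)
  obtain ⟨g, hg, hg0⟩ := h1
  exact norm_root_le hg hg0

theorem mem_OC_of_isIntegral {z : ℂ} (h : IsIntegral ℤ z) : z ∈ OC j :=
  ⟨mem_alg_of_isIntegral h, norm_emb_le j h⟩

end Gouvea.Fin
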