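import Pool.Agent.Work.MP_d3517d_nt.Fin.DescW
import Pool.Agent.Work.MP_d3517d_nt.Fin.Res

/-!
# The counts at level `M` in terms of the counts at levels divisible by `4`
(MP_d3517d_nt, cell FIN)

* `Src`: the input from the levels divisible by `4`;
* `lev_apx`: the counting functions of the classes at every level `M ∣ N` (`p ≥ 5`).
-/

open MvPolynomial
open scoped ENNReal NNReal

noncomputable section

namespace Gouvea.Fin

open Gouvea.Sys Gouvea.ES Gouvea.Desc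

variable {p : ℕ} [Fact p.Prime] (j : algebraicClosure ℚ ℂ →+* PadicAlgCl p)

/-- the number of systems in the class with the property `G` -/
def TG (M k : ℕ) [NeZero M] (A : Set Nat.Primes) (c : Nat.Primes → PadicAlgCl p)
    (G : (MvPolynomial Nat.Primes ℤ →+* ℂ) → Prop) : ℝ :=
  msum (Sys (rhoC M k)) (fun χ => InC j A c χ ∧ G χ) (fun _ => 1)

theorem tot_eq (M k : ℕ) [NeZero M] (A : Set Nat.Primes) (c : Nat.Primes → PadicAlgCl p) :
    (tot j M k A c : ℝ) = TG j M k A c (fun _ => True) := by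
  classical
  rw [TG, msum_one, tot]
  congr 2
  refine Multiset.filter_congr fun χ _ => ?_
  rw [and_true]

theorem cnt_eq (M k : ℕ) [NeZero M] (A : Set Nat.Primes) (c : Nat.Primes → PadicAlgCl p)
    (x : ℝ) :
    (cnt j M k A c x : ℝ) = TG j M k A c (fun χ => slp j χ ≤ ENNReal.ofReal x) := by
  classical
  rw [TG, msum_one, cnt]

theorem InC_insert {A : Set Nat.Primes} (hA : pr2 ∉ A) (c : Nat.Primes → PadicAlgCl p)
    (a : PadicAlgCl p) (χ : MvPolynomial Nat.Primes ℤ →+* ℂ) :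
    InC j (insert pr2 A) (Function.update c pr2 a) χ ↔
      InC j A c χ ∧ ‖emb p j (χ (X pr2)) - a‖ < 1 := by
  unfold InC
  constructor
  · intro h
    refine ⟨fun q hq => ?_, ?_⟩
    · have h1 := h q (Set.mem_insert_of_mem _ hq)
      rwa [Function.update_of_ne (show q ≠ pr2 from fun h => hA (h ▸ hq))] at h1
    · have h1 := h pr2 (Set.mem_insert _ _)
      rwa [Function.update_self] at h1
  · rintro ⟨h1, h2⟩ q hq
    rcases Set.mem_insert_iff.1 hq with rfl | hq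
    · rwa [Function.update_self]
    · rw [Function.update_of_ne (show q ≠ pr2 from fun h => hA (h ▸ hq))]
      exact h1 q hq

theorem InC_update {A : Set Nat.Primes} (hA : pr2 ∈ A) (c : Nat.Primes → PadicAlgCl p)
    (a : PadicAlgCl p) (χ : MvPolynomial Nat.Primes ℤ →+* ℂ) :
    InC j A (Function.update c pr2 a) χ ↔
      InC j (A \ {pr2}) c χ ∧ ‖emb p j (χ (X pr2)) - a‖ < 1 := by
  have h : A = insert pr2 (A \ {pr2}) := by
    rw [Set.insert_sdiff_singleton, Set.insert_eq_of_mem hA]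
  conv_lhs => rw [h]
  exact InC_insert j (by simp) c a χ

theorem InC_repl {A : Set Nat.Primes} (hA : pr2 ∉ A) (c : Nat.Primes → PadicAlgCl p)
    (χ : MvPolynomial Nat.Primes ℤ →+* ℂ) (a : ℂ) :
    InC j A c (repl pr2 χ a) ↔ InC j A c χ := by
  unfold InC
  refine forall₂_congr fun q hq => ?_
  rw [repl_ne pr2 q (fun h => hA (h ▸ hq))]

theorem slp_repl (hp : 3 ≤ p) (χ : MvPolynomial Nat.Primes ℤ →+* ℂ) (a : ℂ) :
    slp j (repl pr2 χ a) = slp j χ := by
  unfold slp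
  rw [repl_ne pr2 (pr p) (fun h => ?_)]
  have : p = 2 := congrArg Subtype.val h
  omega

/-- the integrality of the systems of eigenvalues -/
def Int1 : Prop := ∀ (M k : ℕ) [NeZero M], ∀ χ ∈ Sys (rhoC M k), ∀ q, IsIntegral ℤ (χ (X q))

theorem coe_pr2 : ((pr2 : Nat.Primes) : ℕ) = 2 := rfl

theorem msum_TG (M k : ℕ) [NeZero M] {A A' : Set Nat.Primes} {c c' : Nat.Primes → PadicAlgCl p}
    {G : (MvPolynomial Nat.Primes ℤ →+* ℂ) → Prop} (Q : (MvPolynomial Nat.Primes ℤ →+* ℂ) → Prop)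
    (h : ∀ χ ∈ Sys (rhoC M k), InC j A' c' χ ↔ InC j A c χ ∧ Q χ) :
    msum (Sys (rhoC M k)) (fun χ => (InC j A c χ ∧ G χ) ∧ Q χ) (fun _ => 1) =
      TG j M k A' c' G := by
  refine msum_congr _ _ _ _ fun χ hχ => ?_
  rw [h χ hχ]
  tauto

/-- level `2 M` from level `4 M`, `M` odd -/
theorem TG_semi (hI : Int1) (hp : 3 ≤ p) (M k : ℕ) [NeZero M] (hM : ¬ 2 ∣ M) (hk : 2 ≤ k)
    {A : Set Nat.Primes} (hA : pr2 ∉ A) (c : Nat.Primes → PadicAlgCl p)
    (G : (MvPolynomial Nat.Primes ℤ →+* ℂ) → Prop) :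
    TG j (M * 2) k A c G = TG j (M * 2 * 2) k A c G -
      TG j (M * 2 * 2) k (insert pr2 A) (Function.update c pr2 0) G := by
  have hO : ∀ χ ∈ Sys (rhoC (M * 2 * 2) k), χ (X pr2) ∈ OC j := fun χ hχ =>
    mem_OC_of_isIntegral j (hI _ _ χ hχ _)
  have h1 := count_semi (OC j) (red j) M k pr2 hM hk (by
    rw [coe_pr2]
    exact_mod_cast two_ne (p := p) hp) hO (fun χ => InC j A c χ ∧ G χ) (fun _ => 1)
  have h2 : msum (Sys (rhoC (M * 2 * 2) k))
      (fun χ => (InC j A c χ ∧ G χ) ∧ cond0 (OC j) (red j) pr2 χ) (fun _ => 1) =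
      TG j (M * 2 * 2) k (insert pr2 A) (Function.update c pr2 0) G := by
    refine msum_TG j _ _ _ fun χ hχ => ?_
    rw [InC_insert j hA, cond0, rd_eq j (hO χ hχ)]
    have h3 := rs_eq_iff (p := p) (norm_emb_le j (hI _ _ χ hχ pr2)) (y := 0) (by simp)
    rw [rs_zero] at h3
    rw [h3]
  rw [← h2]
  exact h1

/-- splitting a square condition -/
theorem msum_sq {T : Type*} (S : Multiset T) (P Q Q1 Q2 : T → Prop)
    (h : ∀ x ∈ S, Q x ↔ Q1 x ∨ Q2 x) (h' : ∀ x ∈ S, ¬ (Q1 x ∧ Q2 x)) :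
    msum S (fun x => P x ∧ Q x) (fun _ => 1) = msum S (fun x => P x ∧ Q1 x) (fun _ => 1) +
      msum S (fun x => P x ∧ Q2 x) (fun _ => 1) := by
  classical
  rw [msum_eq_ite, msum_eq_ite, msum_eq_ite, ← Multiset.sum_map_add]
  congr 1
  refine Multiset.map_congr rfl fun x hx => ?_
  have h1 := h x hx
  have h2 := h' x hx
  by_cases hP : P x <;> by_cases hQ1 : Q1 x <;> by_cases hQ2 : Q2 x <;> simp_all

theorem norm_sr_le (r : ℕ) : ‖sr p r‖ ≤ 1 := by
  have h : ‖sr p r‖ ^ 2 ≤ 1 := by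
    rw [← norm_pow, sr_sq]
    have := norm_int_le (p := p) (2 ^ r)
    push_cast at this
    exact this
  by_contra hcon
  push Not at hcon
  nlinarith

theorem rs_two_pow (r : ℕ) : rs ((2 : PadicAlgCl p) ^ r) = 2 ^ r := by
  have := rs_int (p := p) (2 ^ r)
  push_cast at this
  exact this

theorem rs_sr (r : ℕ) : rs (sr p r) ^ 2 = 2 ^ r := by
  rw [← rs_pow (norm_sr_le r), sr_sq, rs_two_pow]

theorem norm_two_le : ‖(2 : PadicAlgCl p)‖ ≤ 1 := by
  have := norm_int_le (p := p) 2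
  push_cast at this
  exact this

theorem rs_two : rs (2 : PadicAlgCl p) = 2 := by
  have := rs_int (p := p) 2
  push_cast at this
  exact this

/-- a condition on the square of the residue -/
theorem TG_sq (hI : Int1) (hp : 3 ≤ p) (M k : ℕ) [NeZero M] {A : Set Nat.Primes} (hA : pr2 ∉ A)
    (c : Nat.Primes → PadicAlgCl p) (G : (MvPolynomial Nat.Primes ℤ →+* ℂ) → Prop) (d : ℤ)
    (s : PadicAlgCl p) (hs : ‖s‖ ≤ 1) (hsd : rs s ^ 2 = (d : kap p)) (hd : (d : kap p) ≠ 0) :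
    msum (Sys (rhoC M k)) (fun χ => (InC j A c χ ∧ G χ) ∧ condA (OC j) (red j) pr2 d χ)
      (fun _ => 1) = TG j M k (insert pr2 A) (Function.update c pr2 s) G +
        TG j M k (insert pr2 A) (Function.update c pr2 (-s)) G := by
  have hint : ∀ χ ∈ Sys (rhoC M k), ‖emb p j (χ (X pr2))‖ ≤ 1 := fun χ hχ =>
    norm_emb_le j (hI _ _ χ hχ _)
  have hns : ‖-s‖ ≤ 1 := by rwa [norm_neg]
  have h2 : (2 : kap p) ≠ 0 := two_ne hp
  have hs0 : rs s ≠ 0 := by
    intro h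
    rw [h, zero_pow two_ne_zero] at hsd
    exact hd hsd.symm
  rw [msum_sq (Sys (rhoC M k)) (fun χ => InC j A c χ ∧ G χ) (condA (OC j) (red j) pr2 d)
    (fun χ => ‖emb p j (χ (X pr2)) - s‖ < 1) (fun χ => ‖emb p j (χ (X pr2)) - -s‖ < 1)
    (fun χ hχ => ?_) (fun χ hχ => ?_)]
  · rw [msum_TG j M k (A' := insert pr2 A) (c' := Function.update c pr2 s) _
      (fun χ hχ => InC_insert j hA c s χ),
      msum_TG j M k (A' := insert pr2 A) (c' := Function.update c pr2 (-s)) _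
      (fun χ hχ => InC_insert j hA c (-s) χ)]
  · rw [← rs_eq_iff (hint χ hχ) hs, ← rs_eq_iff (hint χ hχ) hns, condA,
      rd_eq j (mem_OC_of_isIntegral j (hI _ _ χ hχ _)), rs_neg hs, ← hsd]
    exact sq_eq_sq_iff_eq_or_eq_neg
  · rw [← rs_eq_iff (hint χ hχ) hs, ← rs_eq_iff (hint χ hχ) hns, rs_neg hs]
    rintro ⟨h3, h4⟩
    apply mul_ne_zero h2 hs0
    linear_combination h4 - h3

/-- level `M` from level `4 M`, `M` odd, classes without a condition at `2` -/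
theorem TG_unram (hI : Int1) (hp : 5 ≤ p) (M n : ℕ) [NeZero M] (hM : ¬ 2 ∣ M)
    {A : Set Nat.Primes} (hA : pr2 ∉ A) (c : Nat.Primes → PadicAlgCl p)
    (G : (MvPolynomial Nat.Primes ℤ →+* ℂ) → Prop) (hG : ∀ χ a, G (repl pr2 χ a) ↔ G χ)
    (s : PadicAlgCl p) (hs : ‖s‖ ≤ 1) (hsd : rs s ^ 2 = 2 ^ n) :
    2 * TG j M (n + 2) A c G = TG j (M * 2 * 2) (n + 2) A c G -
      TG j (M * 2 * 2) (n + 2) (insert pr2 A) (Function.update c pr2 0) G -
      (TG j (M * 2 * 2) (n + 2) (insert pr2 A) (Function.update c pr2 s) G +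
        TG j (M * 2 * 2) (n + 2) (insert pr2 A) (Function.update c pr2 (-s)) G) +
      (TG j (M * 2 * 2) (n + 2) (insert pr2 A) (Function.update c pr2 (2 * s)) G +
        TG j (M * 2 * 2) (n + 2) (insert pr2 A) (Function.update c pr2 (-(2 * s))) G) := by
  have hp3 : 3 ≤ p := by omega
  have h2 : (2 : kap p) ≠ 0 := two_ne hp3
  have hO : ∀ χ ∈ Sys (rhoC (M * 2 * 2) (n + 2)), χ (X pr2) ∈ OC j := fun χ hχ =>
    mem_OC_of_isIntegral j (hI _ _ χ hχ _)
  have h1 := count_unram (OC j) (red j) M (n + 2) pr2 hM (by omega) (by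
    rw [coe_pr2]
    exact_mod_cast h2) (by
    rw [coe_pr2]
    intro h
    apply three_ne (p := p) hp
    push_cast at h
    linear_combination h) hO (fun χ => InC j A c χ ∧ G χ)
    (fun χ a => by rw [InC_repl j hA, hG]) (fun _ => 1) (fun _ _ => rfl)
  have h3 : msum (Sys (rhoC (M * 2 * 2) (n + 2)))
      (fun χ => (InC j A c χ ∧ G χ) ∧ cond0 (OC j) (red j) pr2 χ) (fun _ => 1) =
      TG j (M * 2 * 2) (n + 2) (insert pr2 A) (Function.update c pr2 0) G := by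
    refine msum_TG j _ _ _ fun χ hχ => ?_
    rw [InC_insert j hA, cond0, rd_eq j (hO χ hχ)]
    have h3 := rs_eq_iff (p := p) (norm_emb_le j (hI _ _ χ hχ pr2)) (y := 0) (by simp)
    rw [rs_zero] at h3
    rw [h3]
  have h4 := TG_sq j hI hp3 (M * 2 * 2) (n + 2) hA c G (2 ^ n) s hs (by
    push_cast
    exact hsd) (by
    push_cast
    exact pow_ne_zero _ h2)
  have h5 := TG_sq j hI hp3 (M * 2 * 2) (n + 2) hA c G (2 ^ (n + 2)) (2 * s)
    (norm_mul_le_one norm_two_le hs) (by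
    rw [rs_mul norm_two_le hs, rs_two, mul_pow, hsd]
    push_cast
    ring) (by
    push_cast
    exact pow_ne_zero _ h2)
  rw [← h3, ← h4, ← h5]
  exact h1

/-- level `M` from level `4 M`, `M` odd, classes with a condition at `2` -/
theorem TG_at (hI : Int1) (M n : ℕ) [NeZero M] (hM : ¬ 2 ∣ M)
    {A : Set Nat.Primes} (hA : pr2 ∈ A) (c : Nat.Primes → PadicAlgCl p) (hc : ‖c pr2‖ ≤ 1)
    (G : (MvPolynomial Nat.Primes ℤ →+* ℂ) → Prop) (hG : ∀ χ a, G (repl pr2 χ a) ↔ G χ)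
    (α : PadicAlgCl p) (hα1 : ‖α‖ ≤ 1) (hα : rs α ^ 2 - rs (c pr2) * rs α + 2 ^ (n + 1) = 0)
    (hα0 : rs α ≠ 0) (hαd : rs α ^ 2 ≠ 2 ^ n) :
    (open scoped Classical in if ‖c pr2 - 2 * α‖ < 1 then (2 : ℝ) else 1) *
      TG j M (n + 2) A c G = TG j (M * 2 * 2) (n + 2) A (Function.update c pr2 α) G := by
  classical
  have hO : ∀ χ ∈ Sys (rhoC (M * 2 * 2) (n + 2)), χ (X pr2) ∈ OC j := fun χ hχ =>
    mem_OC_of_isIntegral j (hI _ _ χ hχ _)
  have h1 := count_at (OC j) (red j) M (n + 2) pr2 hM (by omega) hO (rs α) (rs (c pr2)) (by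
    rw [coe_pr2, show n + 2 - 1 = n + 1 by omega]
    push_cast
    exact hα) hα0 (by
    rw [coe_pr2, show n + 2 - 2 = n by omega]
    push_cast
    exact hαd) (fun χ => InC j (A \ {pr2}) c χ ∧ G χ)
    (fun χ a => by rw [InC_repl j (by simp), hG]) (fun _ => 1) (fun _ _ => rfl)
  have h2 : msum (Sys (rhoC M (n + 2))) (fun χ => (InC j (A \ {pr2}) c χ ∧ G χ) ∧
      rd (OC j) (red j) (χ (X pr2)) = rs (c pr2)) (fun _ => 1) = TG j M (n + 2) A c G := by
    refine msum_TG j _ _ _ fun χ hχ => ?_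
    rw [rd_eq j (mem_OC_of_isIntegral j (hI _ _ χ hχ _)),
      rs_eq_iff (norm_emb_le j (hI _ _ χ hχ _)) hc]
    have h3 := InC_update j hA c (c pr2) χ
    rwa [Function.update_eq_self] at h3
  have h3 : msum (Sys (rhoC (M * 2 * 2) (n + 2))) (fun χ => (InC j (A \ {pr2}) c χ ∧ G χ) ∧
      rd (OC j) (red j) (χ (X pr2)) = rs α) (fun _ => 1) =
      TG j (M * 2 * 2) (n + 2) A (Function.update c pr2 α) G := by
    refine msum_TG j _ _ _ fun χ hχ => ?_
    rw [rd_eq j (hO χ hχ), rs_eq_iff (norm_emb_le j (hI _ _ χ hχ _)) hα1]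
    exact InC_update j hA c α χ
  have h4 : (rs (c pr2) = 2 * rs α) ↔ ‖c pr2 - 2 * α‖ < 1 := by
    rw [← rs_two, ← rs_mul norm_two_le hα1, rs_eq_iff hc (norm_mul_le_one norm_two_le hα1)]
  have h5 : (if ‖c pr2 - 2 * α‖ < 1 then (2 : ℝ) else 1) =
      (if rs (c pr2) = 2 * rs α then (2 : ℝ) else 1) := by
    by_cases h : ‖c pr2 - 2 * α‖ < 1
    · rw [if_pos h, if_pos (h4.2 h)]
    · rw [if_neg h, if_neg (fun h6 => h (h4.1 h6))]
  rw [h5, ← h2, ← h3]
  exact h1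

end Gouvea.Fin

namespace Gouvea

open scoped Classical in
theorem D0.biUnion {E : ℕ → Set ℕ} (h : ∀ r, D0 (E r)) (P0 : ℕ) :
    D0 (⋃ r ∈ Finset.range P0, E r) := by
  induction P0 with
  | zero => simpa using D0.empty
  | succ m ih =>
    refine (ih.union (h m)).mono ?_
    intro n hn
    simp only [Set.mem_iUnion, Finset.mem_range, Set.mem_union] at hn ⊢
    obtain ⟨r, hr, hn⟩ := hn
    rcases Nat.lt_succ_iff_lt_or_eq.1 hr with h1 | rfl
    · exact Or.inl ⟨r, h1, hn⟩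
    · exact Or.inr hn

/-- families indexed by the residue of `n` -/
theorem Apx.of_mod {P : ℝ} {P0 : ℕ} (hP0 : 0 < P0) {F : ℕ → ℕ → ℝ → ℝ} {G β : ℕ → ℕ → ℝ}
    (h : ∀ r, Apx P (F r) (G r) (β r)) :
    Apx P (fun n x => F (n % P0) n x) (fun n => G (n % P0) n) (fun n => β (n % P0) n) := by
  intro δ hδ
  choose E hE hE' using fun r => h r δ hδ
  refine ⟨⋃ r ∈ Finset.range P0, E r, D0.biUnion hE P0, fun n hn => ?_⟩
  have h1 : n ∉ E (n % P0) := by
    intro h1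
    apply hn
    simp only [Set.mem_iUnion, Finset.mem_range]
    exact ⟨n % P0, Nat.mod_lt _ hP0, h1⟩
  exact hE' _ n h1

end Gouvea

namespace Gouvea.Fin

variable {p : ℕ} [Fact p.Prime] (j : algebraicClosure ℚ ℂ →+* PadicAlgCl p)

/-- the input from the levels divisible by `4` -/
structure Src (bet : ℕ → Set Nat.Primes → (Nat.Primes → PadicAlgCl p) → ℕ → ℝ) : Prop where
  per : ∀ M A c n, bet M A c (n + (p - 1)) = bet M A c n
  apx : ∀ (M : ℕ) [NeZero M], 4 ∣ M → ¬ p ∣ M → ∀ (A : Set Nat.Primes)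
    (c : Nat.Primes → PadicAlgCl p), pr p ∉ A → (∀ q ∈ A, ‖c q‖ ≤ 1) →
    Apx ((p : ℝ) + 1) (fun n x => (cnt j M (n + 2) A c x : ℝ))
      (fun n => (tot j M (n + 2) A c : ℝ)) (bet M A c)

theorem pr_notMem_AN (N : ℕ) : pr p ∉ AN p N := by
  intro h
  exact h (Dvd.intro_left N rfl)

theorem pr_ne_pr2 (hp : 3 ≤ p) : pr p ≠ pr2 := by
  intro h
  have : p = 2 := congrArg Subtype.val h
  omega

theorem pr_notMem_AN' (hp : 3 ≤ p) (N : ℕ) : pr p ∉ insert pr2 (AN p N) := by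
  intro h
  rcases Set.mem_insert_iff.1 h with h | h
  · exact pr_ne_pr2 hp h
  · exact pr_notMem_AN N h

theorem norm_update {A : Set Nat.Primes} {c : Nat.Primes → PadicAlgCl p}
    (hc : ∀ q ∈ A, ‖c q‖ ≤ 1) {s : PadicAlgCl p} (hs : ‖s‖ ≤ 1) :
    ∀ q ∈ insert pr2 A, ‖Function.update c pr2 s q‖ ≤ 1 := by
  intro q hq
  by_cases h : q = pr2
  · rw [h, Function.update_self]
    exact hs
  · rw [Function.update_of_ne h]
    exact hc q ((Set.mem_insert_iff.1 hq).resolve_left h)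

theorem norm_update' {A : Set Nat.Primes} {c : Nat.Primes → PadicAlgCl p}
    (hc : ∀ q ∈ A, ‖c q‖ ≤ 1) {s : PadicAlgCl p} (hs : ‖s‖ ≤ 1) :
    ∀ q ∈ A, ‖Function.update c pr2 s q‖ ≤ 1 := fun q hq =>
  norm_update hc hs q (Set.mem_insert_of_mem _ hq)

variable {j} in
/-- the statement for `TG` -/
theorem Src.apx' {bet : ℕ → Set Nat.Primes → (Nat.Primes → PadicAlgCl p) → ℕ → ℝ}
    (h : Src j bet) (M : ℕ) [NeZero M] (h4 : 4 ∣ M) (hpM : ¬ p ∣ M) (A : Set Nat.Primes)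
    (c : Nat.Primes → PadicAlgCl p) (hA : pr p ∉ A) (hc : ∀ q ∈ A, ‖c q‖ ≤ 1) :
    Apx ((p : ℝ) + 1) (fun n x => TG j M (n + 2) A c (fun χ => slp j χ ≤ ENNReal.ofReal x))
      (fun n => TG j M (n + 2) A c (fun _ => True)) (bet M A c) :=
  (h.apx M h4 hpM A c hA hc).congr (fun n x => (cnt_eq j M (n + 2) A c x).symm)
    (fun n => (tot_eq j M (n + 2) A c).symm) (fun _ => rfl)

theorem norm_rt_le {a : PadicAlgCl p} (ha : ‖a‖ ≤ 1) {r : ℕ} {x : PadicAlgCl p}
    (hx : x ^ 2 - a * x + 2 ^ (r + 1) = 0) : ‖x‖ ≤ 1 := by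
  by_contra hcon
  push Not at hcon
  have h3 : x ^ 2 = a * x + -(2 ^ (r + 1)) := by linear_combination hx
  have h4 : ‖x ^ 2‖ ≤ max ‖a * x‖ ‖-((2 : PadicAlgCl p) ^ (r + 1))‖ := by
    rw [h3]
    exact IsUltrametricDist.norm_add_le_max _ _
  rw [norm_pow, norm_mul, norm_neg, norm_pow] at h4
  have h5 : ‖a‖ * ‖x‖ ≤ ‖x‖ := by
    have := norm_nonneg x
    nlinarith
  have h6 : ‖(2 : PadicAlgCl p)‖ ^ (r + 1) ≤ 1 := pow_le_one₀ (norm_nonneg _) norm_two_le
  have h7 : ‖x‖ ^ 2 ≤ ‖x‖ := h4.trans (max_le h5 (h6.trans hcon.le))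
  nlinarith

/-- the roots exist if `p ≥ 5` -/
theorem exists_isRt (hp : 5 ≤ p) {a : PadicAlgCl p} (ha : ‖a‖ ≤ 1) (r : ℕ) :
    ∃ α, IsRt a r α := by
  have h2 : (2 : kap p) ≠ 0 := two_ne (by omega)
  obtain ⟨α, β, hab, hc⟩ := Desc.exists_ab a (2 ^ (r + 1) : PadicAlgCl p)
  have hint := fun x hx => norm_rt_le (p := p) ha (r := r) (x := x) hx
  have hα : α ^ 2 - a * α + 2 ^ (r + 1) = 0 := by
    rw [← hab, ← hc]
    ring
  have hβ : β ^ 2 - a * β + 2 ^ (r + 1) = 0 := by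
    rw [← hab, ← hc]
    ring
  have hα1 := hint α hα
  have hβ1 := hint β hβ
  have h2r : ‖(2 : PadicAlgCl p) ^ r‖ ≤ 1 := by
    rw [norm_pow]
    exact pow_le_one₀ (norm_nonneg _) norm_two_le
  have hsq : ∀ x : PadicAlgCl p, ‖x‖ ≤ 1 → ‖x ^ 2‖ ≤ 1 := fun x hx => by
    rw [norm_pow]
    exact pow_le_one₀ (norm_nonneg _) hx
  have key : ∀ x : PadicAlgCl p, ‖x‖ ≤ 1 → ¬ ‖x ^ 2 - 2 ^ r‖ = 1 → rs x ^ 2 = 2 ^ r := by
    intro x hx h
    have h3 : ‖x ^ 2 - 2 ^ r‖ < 1 :=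
      lt_of_le_of_ne (Sys.norm_sub_le_one (hsq x hx) h2r) h
    rw [← rs_eq_iff (hsq x hx) h2r, rs_pow hx, rs_two_pow] at h3
    exact h3
  by_contra hcon
  push Not at hcon
  have h3 := key α hα1 fun h => hcon α ⟨hα, h⟩
  have h4 := key β hβ1 fun h => hcon β ⟨hβ, h⟩
  have h5 : rs α * rs β = 2 ^ (r + 1) := by
    rw [← rs_mul hα1 hβ1, hc, rs_two_pow]
  have h6 : ((2 : kap p) ^ r) * (3 * 2 ^ r) = 0 := by
    have h7 : (rs α * rs β) ^ 2 = rs α ^ 2 * rs β ^ 2 := by ring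
    rw [h5, h3, h4] at h7
    linear_combination h7
  have h7 : (2 : kap p) ^ r ≠ 0 := pow_ne_zero _ h2
  exact mul_ne_zero h7 (mul_ne_zero (three_ne hp) h7) h6

theorem isRt_rt (hp : 5 ≤ p) {a : PadicAlgCl p} (ha : ‖a‖ ≤ 1) (r : ℕ) : IsRt a r (rt a r) := by
  rw [rt, dif_pos (exists_isRt hp ha r)]
  exact Classical.choose_spec (exists_isRt hp ha r)

theorem IsRt.norm_le {a : PadicAlgCl p} (ha : ‖a‖ ≤ 1) {r : ℕ} {x : PadicAlgCl p}
    (h : IsRt a r x) : ‖x‖ ≤ 1 := norm_rt_le ha h.1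

theorem mu_pos (a : PadicAlgCl p) (r : ℕ) : 0 < mu a r := by
  unfold mu
  split_ifs <;> norm_num

section Main

variable {j} {bet : ℕ → Set Nat.Primes → (Nat.Primes → PadicAlgCl p) → ℕ → ℝ}
  (hsrc : Src j bet) (hI : Int1) {c : Nat.Primes → PadicAlgCl p} {N : ℕ}
  (hc : ∀ q ∈ AN p N, ‖c q‖ ≤ 1)

include hsrc hc

/-- level `4 ∣ M` -/
theorem lev_four (M : ℕ) [NeZero M] (hpM : ¬ p ∣ M) (h4 : 4 ∣ M) :
    Apx ((p : ℝ) + 1)
      (fun n x => TG j M (n + 2) (AN p N) c (fun χ => slp j χ ≤ ENNReal.ofReal x))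
      (fun n => TG j M (n + 2) (AN p N) c (fun _ => True)) (den bet N M c) := by
  refine (hsrc.apx' M h4 hpM (AN p N) c (pr_notMem_AN N) hc).congr
    (fun _ _ => rfl) (fun _ => rfl) (fun n => ?_)
  simp only [den]
  rw [if_pos h4]

include hI

/-- level `2 M'`, `M'` odd -/
theorem lev_two (hp : 3 ≤ p) (M : ℕ) [NeZero M] (hpM : ¬ p ∣ M) (h2 : ¬ 2 ∣ M) (hN : 2 ∣ N) :
    Apx ((p : ℝ) + 1)
      (fun n x => TG j (M * 2) (n + 2) (AN p N) c (fun χ => slp j χ ≤ ENNReal.ofReal x))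
      (fun n => TG j (M * 2) (n + 2) (AN p N) c (fun _ => True)) (den bet N (M * 2) c) := by
  have hA : pr2 ∉ AN p N := fun h => h (Dvd.dvd.mul_right hN p)
  have h4 : 4 ∣ M * 2 * 2 := ⟨M, by ring⟩
  have hpM4 : ¬ p ∣ M * 2 * 2 := by
    intro h
    rcases (Fact.out : p.Prime).dvd_mul.1 h with h | h
    · rcases (Fact.out : p.Prime).dvd_mul.1 h with h | h
      · exact hpM h
      · have := Nat.le_of_dvd (by norm_num) h
        omega
    · have := Nat.le_of_dvd (by norm_num) h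
      omega
  have h1 := (hsrc.apx' (M * 2 * 2) h4 hpM4 (AN p N) c (pr_notMem_AN N) hc)
  have h3 := (hsrc.apx' (M * 2 * 2) h4 hpM4 (insert pr2 (AN p N)) (Function.update c pr2 0)
    (pr_notMem_AN' hp N) (norm_update hc (by simp)))
  refine (h1.add (h3.smul (-1))).congr (fun n x => ?_) (fun n => ?_) (fun n => ?_)
  · rw [TG_semi j hI hp M (n + 2) h2 (by omega) hA c]
    ring
  · rw [TG_semi j hI hp M (n + 2) h2 (by omega) hA c]
    ring
  · simp only [den]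
    rw [if_neg (show ¬ 4 ∣ M * 2 by omega), if_pos (Dvd.intro_left M rfl),
      show 2 * (M * 2) = M * 2 * 2 by ring]
    ring

/-- level `M` odd, `N` even -/
theorem lev_one (hp : 5 ≤ p) (M : ℕ) [NeZero M] (hpM : ¬ p ∣ M) (h2 : ¬ 2 ∣ M) (hN : 2 ∣ N) :
    Apx ((p : ℝ) + 1)
      (fun n x => TG j M (n + 2) (AN p N) c (fun χ => slp j χ ≤ ENNReal.ofReal x))
      (fun n => TG j M (n + 2) (AN p N) c (fun _ => True)) (den bet N M c) := by
  have hp3 : 3 ≤ p := by omega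
  have hp1 : 0 < p - 1 := by omega
  have hA : pr2 ∉ AN p N := fun h => h (Dvd.dvd.mul_right hN p)
  have h4 : 4 ∣ M * 2 * 2 := ⟨M, by ring⟩
  have hpM4 : ¬ p ∣ M * 2 * 2 := by
    intro h
    rcases (Fact.out : p.Prime).dvd_mul.1 h with h | h
    · rcases (Fact.out : p.Prime).dvd_mul.1 h with h | h
      · exact hpM h
      · have := Nat.le_of_dvd (by norm_num) h
        omega
    · have := Nat.le_of_dvd (by norm_num) h
      omega
  have g0 := (hsrc.apx' (M * 2 * 2) h4 hpM4 (AN p N) c (pr_notMem_AN N) hc)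
  have g1 : ∀ s : PadicAlgCl p, ‖s‖ ≤ 1 → _ := fun s hs =>
    (hsrc.apx' (M * 2 * 2) h4 hpM4 (insert pr2 (AN p N)) (Function.update c pr2 s)
      (pr_notMem_AN' hp3 N) (norm_update hc hs))
  have g2 := g1 0 (by simp)
  have g3 := Apx.of_mod hp1 fun r => g1 (sr p r) (norm_sr_le r)
  have g4 := Apx.of_mod hp1 fun r => g1 (-sr p r) (by rw [norm_neg]; exact norm_sr_le r)
  have g5 := Apx.of_mod hp1 fun r => g1 (2 * sr p r) (norm_mul_le_one norm_two_le (norm_sr_le r))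
  have g6 := Apx.of_mod hp1 fun r => g1 (-(2 * sr p r)) (by
    rw [norm_neg]; exact norm_mul_le_one norm_two_le (norm_sr_le r))
  have hsd : ∀ n, rs (sr p (n % (p - 1))) ^ 2 = 2 ^ n := fun n => by
    rw [rs_sr]
    have := two_pow_mod (p := p) hp3 n 0
    simpa using this.symm
  refine ((((g0.add (g2.smul (-1))).add ((g3.add g4).smul (-1))).add (g5.add g6)).smul
    (1 / 2)).congr (fun n x => ?_) (fun n => ?_) (fun n => ?_)
  · have := TG_unram j hI hp M n h2 hA c (fun χ => slp j χ ≤ ENNReal.ofReal x)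
      (fun χ a => by rw [slp_repl j hp3]) (sr p (n % (p - 1))) (norm_sr_le _) (hsd n)
    linarith
  · have := TG_unram j hI hp M n h2 hA c (fun _ => True)
      (fun χ a => Iff.rfl) (sr p (n % (p - 1))) (norm_sr_le _) (hsd n)
    linarith
  · simp only [den]
    rw [if_neg (show ¬ 4 ∣ M by omega), if_neg h2, if_pos hN, show 4 * M = M * 2 * 2 by ring]
    ring

/-- `N` odd -/
theorem lev_odd (hp : 5 ≤ p) (M : ℕ) [NeZero M] (hpM : ¬ p ∣ M) (hN : ¬ 2 ∣ N) (hMN : M ∣ N) :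
    Apx ((p : ℝ) + 1)
      (fun n x => TG j M (n + 2) (AN p N) c (fun χ => slp j χ ≤ ENNReal.ofReal x))
      (fun n => TG j M (n + 2) (AN p N) c (fun _ => True)) (den bet N M c) := by
  have hp3 : 3 ≤ p := by omega
  have hp1 : 0 < p - 1 := by omega
  have h2 : ¬ 2 ∣ M := fun h => hN (h.trans hMN)
  have hA : pr2 ∈ AN p N := by
    intro h
    rcases Nat.prime_two.dvd_mul.1 h with h | h
    · exact hN h
    · have := (Nat.prime_dvd_prime_iff_eq Nat.prime_two (Fact.out : p.Prime)).1 h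
      omega
  have h4 : 4 ∣ M * 2 * 2 := ⟨M, by ring⟩
  have hpM4 : ¬ p ∣ M * 2 * 2 := by
    intro h
    rcases (Fact.out : p.Prime).dvd_mul.1 h with h | h
    · rcases (Fact.out : p.Prime).dvd_mul.1 h with h | h
      · exact hpM h
      · have := Nat.le_of_dvd (by norm_num) h
        omega
    · have := Nat.le_of_dvd (by norm_num) h
      omega
  have g := Apx.of_mod hp1 fun r => ((hsrc.apx' (M * 2 * 2) h4 hpM4 (AN p N)
    (Function.update c pr2 (rt (c pr2) r)) (pr_notMem_AN N)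
    (norm_update' hc ((isRt_rt hp (hc pr2 hA) r).norm_le (hc pr2 hA)))).smul
      (1 / mu (c pr2) r))
  have key : ∀ n (G : (MvPolynomial Nat.Primes ℤ →+* ℂ) → Prop),
      (∀ χ a, G (Desc.repl pr2 χ a) ↔ G χ) →
      mu (c pr2) (n % (p - 1)) * TG j M (n + 2) (AN p N) c G =
      TG j (M * 2 * 2) (n + 2) (AN p N)
        (Function.update c pr2 (rt (c pr2) (n % (p - 1)))) G := by
    intro n G hG
    have hc2 := hc pr2 hA
    have hrt := isRt_rt hp hc2 (n % (p - 1))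
    have hα1 := hrt.norm_le hc2
    have hsq : ‖rt (c pr2) (n % (p - 1)) ^ 2‖ ≤ 1 := by
      rw [norm_pow]
      exact pow_le_one₀ (norm_nonneg _) hα1
    have h2r : ∀ r : ℕ, ‖(2 : PadicAlgCl p) ^ r‖ ≤ 1 := fun r => by
      rw [norm_pow]
      exact pow_le_one₀ (norm_nonneg _) norm_two_le
    have e1 : rs (rt (c pr2) (n % (p - 1))) ^ 2 -
        rs (c pr2) * rs (rt (c pr2) (n % (p - 1))) + 2 ^ (n + 1) = 0 := by
      have h5 := congrArg rs hrt.1
      rw [rs_zero, sub_eq_add_neg, rs_add (Sys.norm_add_le_one hsq (by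
        rw [norm_neg]; exact norm_mul_le_one hc2 hα1)) (h2r _), rs_add hsq (by
        rw [norm_neg]; exact norm_mul_le_one hc2 hα1), rs_neg (norm_mul_le_one hc2 hα1),
        rs_mul hc2 hα1, rs_pow hα1, rs_two_pow, ← two_pow_mod hp3 n 1] at h5
      rw [← h5]
      ring
    have hne : (2 : kap p) ^ (n + 1) ≠ 0 := pow_ne_zero _ (two_ne hp3)
    have e2 : rs (rt (c pr2) (n % (p - 1))) ≠ 0 := by
      intro h0
      rw [h0] at e1
      apply hne
      linear_combination e1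
    have e3 : rs (rt (c pr2) (n % (p - 1))) ^ 2 ≠ 2 ^ n := by
      intro h0
      have h6 := two_pow_mod (p := p) hp3 n 0
      rw [add_zero, add_zero] at h6
      rw [h6, ← rs_two_pow, ← rs_pow hα1, rs_eq_iff hsq (h2r _), hrt.2] at h0
      exact lt_irrefl _ h0
    exact TG_at j hI M n h2 hA c hc2 G hG _ hα1 e1 e2 e3
  refine g.congr (fun n x => ?_) (fun n => ?_) (fun n => ?_)
  · have h5 := key n (fun χ => slp j χ ≤ ENNReal.ofReal x) fun χ a => by rw [slp_repl j hp3]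
    have h6 := mu_pos (c pr2) (n % (p - 1))
    rw [← h5]
    field_simp
  · have h5 := key n (fun _ => True) fun χ a => Iff.rfl
    have h6 := mu_pos (c pr2) (n % (p - 1))
    rw [← h5]
    field_simp
  · simp only [den]
    rw [if_neg (show ¬ 4 ∣ M by omega), if_neg h2, if_neg hN, show 4 * M = M * 2 * 2 by ring]
    ring

/-- **The counting functions of the classes at level `M ∣ N`.** -/
theorem lev_apx' (hp : 5 ≤ p) {M : ℕ} [NeZero M] (hpN : ¬ p ∣ N) (hMN : M ∣ N) :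
    Apx ((p : ℝ) + 1)
      (fun n x => TG j M (n + 2) (AN p N) c (fun χ => slp j χ ≤ ENNReal.ofReal x))
      (fun n => TG j M (n + 2) (AN p N) c (fun _ => True)) (den bet N M c) := by
  have hpM : ¬ p ∣ M := fun h => hpN (h.trans hMN)
  by_cases h4 : 4 ∣ M
  · exact lev_four hsrc hc M hpM h4
  by_cases hN : 2 ∣ N
  · by_cases h2 : 2 ∣ M
    · obtain ⟨M', rfl⟩ : ∃ M', M = M' * 2 := by
        obtain ⟨M', h⟩ := h2
        exact ⟨M', by omega⟩
      have : NeZero M' := ⟨fun h => NeZero.ne (M' * 2) (by rw [h, zero_mul])⟩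
      exact lev_two hsrc hI hc (by omega) M' (fun h => hpM (h.mul_right 2)) (by omega) hN
    · exact lev_one hsrc hI hc hp M hpM h2 hN
  · exact lev_odd hsrc hI hc hp M hpM hN hMN

/-- **The counting functions of the classes at level `M ∣ N`.** -/
theorem lev_apx (hp : 5 ≤ p) {M : ℕ} [NeZero M] (hpN : ¬ p ∣ N) (hMN : M ∣ N) :
    Apx ((p : ℝ) + 1) (fun n x => (cnt j M (n + 2) (AN p N) c x : ℝ))
      (fun n => (tot j M (n + 2) (AN p N) c : ℝ)) (den bet N M c) :=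
  (lev_apx' hsrc hI hc hp hpN hMN).congr (fun n x => cnt_eq j M (n + 2) (AN p N) c x)
    (fun n => tot_eq j M (n + 2) (AN p N) c) (fun _ => rfl)

omit hI hc in
/-- the densities are periodic -/
theorem den_per (M n : ℕ) : den bet N M c (n + (p - 1)) = den bet N M c n := by
  simp only [den, hsrc.per, Nat.add_mod_right]

omit hI hc in
theorem newden_per (n : ℕ) : newden bet N c (n + (p - 1)) = newden bet N c n := by
  simp only [newden, den_per hsrc]

end Main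

end Gouvea.Fin
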