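import Pool.Agent.Work.MP_d3517d_nt.Fin.Core
import Pool.Agent.Work.MP_d3517d_nt.Fin.Level
import Pool.Agent.Work.MP_d3517d_nt.NF.Main
import Pool.Agent.Work.MP_d3517d_nt.NF.Integral

/-!
# Q1 from the counting functions at the levels `M ∣ N` (MP_d3517d_nt, cell FIN)

* `newform_apx`: the counting functions of the newforms in one class;
* `q1_of_levels`: the statement `Q1 p N` from the counting functions of the classes at the levels
  `M ∣ N` and the positivity of the density of the newforms.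
-/

open Filter Topology MeasureTheory UpperHalfPlane CongruenceSubgroup MvPolynomial
open scoped MatrixGroups ModularForm ENNReal

noncomputable section

namespace Gouvea.Fin

open Gouvea.Sys Gouvea.ES Gouvea.NF

variable {p : ℕ} [Fact p.Prime] {j : algebraicClosure ℚ ℂ →+* PadicAlgCl p} {N : ℕ} {f₀ : ℍ → ℂ}

/-- the class of `f₀` -/
def clc (j : algebraicClosure ℚ ℂ →+* PadicAlgCl p) (f₀ : ℍ → ℂ) (q : Nat.Primes) :
    PadicAlgCl p := emb p j (coef f₀ q)

theorem mem_cls_iff (k : ℕ) (f : Gouvea.Cusp N k) :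
    f ∈ cls p N j f₀ k ↔ IsNewform N k f ∧ InC j (AN p N) (clc j f₀) (chiNF f) := by
  rw [cls, Set.mem_ofPred_eq]
  refine and_congr_right fun _ => ?_
  unfold InC
  constructor
  · intro h q hq
    rw [chiNF_X]
    exact h q q.2 hq
  · intro h l hl hlN
    have := h ⟨l, hl⟩ hlN
    rwa [chiNF_X] at this

theorem slo_eq (k : ℕ) (f : Gouvea.Cusp N k) : slo p N j k f = slp j (chiNF f) := by
  rw [slo, slp, chiNF_X]
  rfl

theorem cls_finite (hN : 0 < N) (f₀ : ℍ → ℂ) (k : ℕ) : (cls p N j f₀ k).Finite :=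
  (finite_setOf_isNewform N k hN).subset fun _ hf => hf.1

theorem primeTo_InC (c : Nat.Primes → PadicAlgCl p) : PrimeTo N (InC j (AN p N) c) := by
  intro χ χ' h h1 q hq
  rw [← h q fun h2 => hq (Dvd.dvd.mul_right h2 p)]
  exact h1 q hq

theorem primeTo_InC_slp (hpN : ¬ p ∣ N) (c : Nat.Primes → PadicAlgCl p) (y : ℝ≥0∞) :
    PrimeTo N (fun χ => InC j (AN p N) c χ ∧ slp j χ ≤ y) := by
  rintro χ χ' h ⟨h1, h2⟩
  refine ⟨primeTo_InC c χ χ' h h1, ?_⟩
  unfold slp at h2 ⊢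
  rwa [← h (pr p) hpN]

theorem card_clsM (hfin : ∀ k, (cls p N j f₀ k).Finite) (k : ℕ) :
    (clsM p N j f₀ hfin k).card =
      {F : Gouvea.Cusp N k | IsNewform N k F ∧ InC j (AN p N) (clc j f₀) (chiNF F)}.ncard := by
  rw [clsM, Multiset.card_map, Finset.card_val, ← Set.ncard_coe_finset, Set.Finite.coe_toFinset]
  congr 1
  ext F
  rw [mem_cls_iff]
  rfl

theorem countP_clsM (hfin : ∀ k, (cls p N j f₀ k).Finite) (k : ℕ) (y : ℝ≥0∞) :
    (clsM p N j f₀ hfin k).countP (fun v => v ≤ y) =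
      {F : Gouvea.Cusp N k | IsNewform N k F ∧
        (InC j (AN p N) (clc j f₀) (chiNF F) ∧ slp j (chiNF F) ≤ y)}.ncard := by
  classical
  rw [clsM, Multiset.countP_map, ← Finset.filter_val, Finset.card_val, ← Set.ncard_coe_finset]
  congr 1
  ext F
  rw [Finset.mem_coe, Finset.mem_filter, Set.Finite.mem_toFinset, mem_cls_iff, slo_eq,
    Set.mem_ofPred_eq, and_assoc]

theorem card_filter_inst {α : Type*} (s : Multiset α) (q : α → Prop) (h1 h2 : DecidablePred q) :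
    Multiset.card (@Multiset.filter α q h1 s) = Multiset.card (@Multiset.filter α q h2 s) := by
  rw [Subsingleton.elim h1 h2]

theorem cS_tot (M k : ℕ) [NeZero M] (A : Set Nat.Primes) (c : Nat.Primes → PadicAlgCl p) :
    cS M k (InC j A c) = tot j M k A c := by
  rw [cS_eq, tot]

theorem cS_cnt (M k : ℕ) [NeZero M] (A : Set Nat.Primes) (c : Nat.Primes → PadicAlgCl p)
    (x : ℝ) :
    cS M k (fun χ => InC j A c χ ∧ slp j χ ≤ ENNReal.ofReal x) = cnt j M k A c x := by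
  rw [cS_eq, cnt]
  exact card_filter_inst _ _ _ _

/-- **The counting functions of the newforms in one class.** -/
theorem newform_apx (hN : 0 < N) (hpN : ¬ p ∣ N)
    (hfin : ∀ k, (cls p N j f₀ k).Finite) {β : ℕ → ℕ → ℝ}
    (h : ∀ (M : ℕ) [NeZero M], M ∣ N →
      Apx ((p : ℝ) + 1) (fun n x => (cnt j M (n + 2) (AN p N) (clc j f₀) x : ℝ))
        (fun n => (tot j M (n + 2) (AN p N) (clc j f₀) : ℝ)) (β M)) :
    Apx ((p : ℝ) + 1)
      (fun n x => ((clsM p N j f₀ hfin (n + 2)).countP (fun v => v ≤ ENNReal.ofReal x) : ℝ))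
      (fun n => ((clsM p N j f₀ hfin (n + 2)).card : ℝ))
      (fun n => ∑ x ∈ N.divisorsAntidiagonal,
        (((ArithmeticFunction.moebius * ArithmeticFunction.moebius) x.1 : ℤ) : ℝ) * β x.2 n) := by
  have h1 : ∀ x ∈ N.divisorsAntidiagonal, Apx ((p : ℝ) + 1)
      (fun n y => (cS x.2 (n + 2) (fun χ => InC j (AN p N) (clc j f₀) χ ∧
        slp j χ ≤ ENNReal.ofReal y) : ℝ))
      (fun n => (cS x.2 (n + 2) (InC j (AN p N) (clc j f₀)) : ℝ)) (β x.2) := by
    intro x hx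
    have hx2 : x.2 ∣ N := Nat.dvd_of_mem_divisors (Nat.snd_mem_divisors_of_mem_antidiagonal hx)
    have : NeZero x.2 := ⟨fun h0 => by
      rw [h0] at hx2
      exact hN.ne' (Nat.eq_zero_of_zero_dvd hx2)⟩
    exact (h x.2 hx2).congr (fun n y => by rw [cS_cnt]) (fun n => by rw [cS_tot]) fun _ => rfl
  refine (Apx.sum N.divisorsAntidiagonal
    (fun x => (((ArithmeticFunction.moebius * ArithmeticFunction.moebius) x.1 : ℤ) : ℝ))
    h1).congr (fun n x => ?_) (fun n => ?_) (fun n => rfl)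
  · rw [countP_clsM]
    have h2 := card_newforms (n + 2) hN (primeTo_InC_slp (p := p) (j := j) hpN (clc j f₀)
      (ENNReal.ofReal x))
    have h3 := congrArg (Int.cast : ℤ → ℝ) h2
    push_cast at h3
    rw [← Int.cast_natCast (R := ℝ), Int.cast_natCast, h3]
  · rw [card_clsM]
    have h2 := card_newforms (n + 2) hN (primeTo_InC (p := p) (j := j) (N := N) (clc j f₀))
    have h3 := congrArg (Int.cast : ℤ → ℝ) h2
    push_cast at h3
    rw [← Int.cast_natCast (R := ℝ), Int.cast_natCast, h3]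

/-- the number of newforms of weight `k` is `O(k)` -/
theorem card_clsM_le (hN : 0 < N) (hfin : ∀ k, (cls p N j f₀ k).Finite) :
    ∃ C : ℝ, ∀ n, ((clsM p N j f₀ hfin (n + 2)).card : ℝ) ≤ C * (n + 1) := by
  have : NeZero N := ⟨hN.ne'⟩
  set d := (Gamma0 N).index with hd
  refine ⟨d + (d ^ 2 + d), fun n => ?_⟩
  have h1 : (clsM p N j f₀ hfin (n + 2)).card ≤ Module.finrank ℂ (Gouvea.Cusp N (n + 2)) := by
    rw [card_clsM]
    have h2 := cS_eq_sum (n + 2) hN (dvd_refl N) (primeTo_InC (p := p) (j := j) (N := N) (clc j f₀))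
    have h3 : {F : Gouvea.Cusp N (n + 2) | IsNewform N (n + 2) F ∧
        InC j (AN p N) (clc j f₀) (chiNF F)}.ncard ≤ cS N (n + 2) (InC j (AN p N) (clc j f₀)) := by
      rw [h2]
      have h4 := Finset.single_le_sum (s := N.divisors)
        (f := fun D => (N / D).divisors.card *
          {F : Gouvea.Cusp D (n + 2) | IsNewform D (n + 2) F ∧
            InC j (AN p N) (clc j f₀) (chiNF F)}.ncard)
        (fun _ _ => Nat.zero_le _) (Nat.mem_divisors_self N hN.ne')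
      refine le_trans ?_ h4
      simp only [Nat.div_self hN, Nat.divisors_one, Finset.card_singleton, one_mul, le_refl]
    refine h3.trans ?_
    rw [cS_tot, tot, ← card_Sys (rhoC N (n + 2))]
    classical
    exact Multiset.card_le_card (Multiset.filter_le _ _)
  have h2 := Pool.Agent.Gouv.ESDim.finrank_cuspForm_le N (n + 2)
  have h5 : Module.finrank ℂ (CuspForm ((Gamma0 N : Subgroup SL(2, ℤ)) :
      Subgroup (GL (Fin 2) ℝ)) ((n + 2 : ℕ) : ℤ)) =
      Module.finrank ℂ (Gouvea.Cusp N (n + 2)) := rfl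
  rw [h5, ← hd] at h2
  have h6 : 12 * (clsM p N j f₀ hfin (n + 2)).card ≤ d * (n + 2) + 12 * (d ^ 2 + d) := by omega
  have h7 : (12 : ℝ) * (clsM p N j f₀ hfin (n + 2)).card ≤
      d * (n + 2) + 12 * (d ^ 2 + d) := by exact_mod_cast h6
  have h8 : (0 : ℝ) ≤ d := Nat.cast_nonneg _
  have h9 : (0 : ℝ) ≤ n := Nat.cast_nonneg _
  nlinarith [mul_nonneg h8 h9, mul_nonneg (pow_nonneg h8 2) h9]

/-- **`Q1 p N` from the counting functions at the levels `M ∣ N`.** -/
theorem q1_of_levels (hN : 0 < N) (hpN : ¬ p ∣ N)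
    (H : ∀ (j : algebraicClosure ℚ ℂ →+* PadicAlgCl p) (k₀ : ℕ) (f₀ : Gouvea.Cusp N k₀),
      IsNewform N k₀ f₀ → (∀ q ∈ AN p N, ‖clc j f₀ q‖ ≤ 1) →
      ∃ (β : ℕ → ℕ → ℝ) (P0 n0 : ℕ), 0 < P0 ∧ (∀ M n, β M (n + P0) = β M n) ∧
        (∀ (M : ℕ) [NeZero M], M ∣ N →
          Apx ((p : ℝ) + 1) (fun n x => (cnt j M (n + 2) (AN p N) (clc j f₀) x : ℝ))
            (fun n => (tot j M (n + 2) (AN p N) (clc j f₀) : ℝ)) (β M)) ∧
        0 < ∑ x ∈ N.divisorsAntidiagonal,
          (((ArithmeticFunction.moebius * ArithmeticFunction.moebius) x.1 : ℤ) : ℝ) *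
            β x.2 n0) :
    Q1 p N := by
  intro j k₀ f₀ hf₀
  refine ⟨fun k f hf l hl hlN => isIntegral_coef hN hl hlN hf, ?_⟩
  have hfin : ∀ k, (cls p N j f₀ k).Finite := cls_finite hN f₀
  obtain ⟨β, P0, n0, hP0, hper, hapx, hpos⟩ := H j k₀ f₀ hf₀ fun q hq =>
    norm_emb_le j (isIntegral_coef hN q.2 (fun h => hq (Dvd.dvd.mul_right h p)) hf₀)
  obtain ⟨C, hC⟩ := card_clsM_le (p := p) (j := j) hN hfin
  exact third_of_apx hfin hP0 (fun n => by simp only [hper]) hpos hC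
    (newform_apx hN hpN hfin hapx)

/-- **`Q1 p N`, `p ≥ 5`, from the levels divisible by `4`.** -/
theorem q1_of_src (hp : 5 ≤ p) (hN : 0 < N) (hpN : ¬ p ∣ N)
    {bet : ℕ → Set Nat.Primes → (Nat.Primes → PadicAlgCl p) → ℕ → ℝ}
    (hsrc : ∀ j : algebraicClosure ℚ ℂ →+* PadicAlgCl p, Src j bet) (hI : Int1)
    (hpos : ∀ (j : algebraicClosure ℚ ℂ →+* PadicAlgCl p) (k₀ : ℕ) (f₀ : Gouvea.Cusp N k₀),
      IsNewform N k₀ f₀ → 0 < newden bet N (clc j f₀) (k₀ - 2)) :
    Q1 p N := by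
  refine q1_of_levels hN hpN fun j k₀ f₀ hf₀ hc => ?_
  refine ⟨fun M => den bet N M (clc j f₀), p - 1, k₀ - 2, by omega,
    fun M n => den_per (hsrc j) M n, fun M _ hM => lev_apx (hsrc j) hI hc hp hpN hM,
    hpos j k₀ f₀ hf₀⟩

end Gouvea.Fin
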