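import Pool.Agent.Work.MP_d3517d_nt.Fin.One
import Pool.Agent.Work.MP_d3517d_nt.POS.Comb

/-!
# Gouvêa's question, `p ≥ 5`, all levels, from exact Eichler–Shimura (MP_d3517d_nt)
-/

noncomputable section

namespace Gouvea.Fin

open Gouvea.Sys Gouvea.ES

variable {p : ℕ} [Fact p.Prime]

theorem q1_of_exactES (hEX : ∀ n, POS.ExactES n) (hp : 5 ≤ p) {N : ℕ} (hN : 0 < N)
    (hpN : ¬ p ∣ N) : Q1 p N :=
  q1_of_src hp hN hpN (fun j => src (by omega) j) int1 fun j _ _ hf₀ =>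
    POS.newden_pos j hp hN hpN hEX int1 hf₀

end Gouvea.Fin
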