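import Pool.Agent.Work.MP_d3517d_nt.Fin.Five
import Pool.Agent.Work.MP_d3517d_nt.Cnt.ExactZero

/-!
# Gouvêa's question, `p ≥ 5`, all levels (MP_d3517d_nt)
-/

noncomputable section

namespace Gouvea.Fin

variable {p : ℕ} [Fact p.Prime]

/-- **Gouvêa's question for every prime `p ≥ 5` and every level prime to `p`.** -/
theorem q1_five (hp : 5 ≤ p) {N : ℕ} (hN : 0 < N) (hpN : ¬ p ∣ N) : Q1 p N :=
  q1_of_exactES (fun n hn => Cnt.exactES n hn hn) hp hN hpN

end Gouvea.Fin
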