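import Pool.Agent.Work.MP_d3517d_nt.Fin.SrcApx

/-!
# From the integral matrices to the cusp forms, general form (MP_d3517d_nt)

`apx_gen`: from `Apx` for the systems of integral matrices which are small on the ideal `Jc A c`
to `Apx` for the cusp forms of level `M` in the class `(A, c)`.
-/

open MvPolynomial

noncomputable section

namespace Gouvea.Fin

open Gouvea.Sys Gouvea.ES

variable {p : ℕ} [Fact p.Prime] (j : algebraicClosure ℚ ℂ →+* PadicAlgCl p)

section

variable {ι : ℕ → Type} [∀ n, Fintype (ι n)] [∀ n, DecidableEq (ι n)]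
  (B : ∀ n : ℕ, Even n → (HR →+* Matrix (ι n) (ι n) ℤ))
  {A : Set Nat.Primes} {c : Nat.Primes → PadicAlgCl p}

open Classical in
/-- The class `(A, c)` from the ideal `Jc A c`. -/
theorem apx_classJ (hA : ∀ q ∈ A, (q : ℕ) ≠ p) (hc : ∀ q ∈ A, ‖c q‖ ≤ 1) {P : ℝ} {β : ℕ → ℝ}
    (hβ : Apx P
      (fun n x => if hn : Even n then
        (((SJ (B n hn) (Jc A c)).filter fun χ => (p : ℝ) ^ (-x) ≤ ‖χ (Xp p)‖).card : ℝ) else 0)
      (fun n => if hn : Even n then ((SJ (B n hn) (Jc A c)).card : ℝ) else 0) β) :
    Apx P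
      (fun n x => if hn : Even n then
        (1 / 2) * (((Sys (matRep (intRep (PadicAlgCl p) (B n hn)))).filter
          fun χ : HR →+* PadicAlgCl p => InP A c χ ∧ (p : ℝ) ^ (-x) ≤ ‖χ (Xp p)‖).card : ℝ) else 0)
      (fun n => if hn : Even n then
        (1 / 2) * (((Sys (matRep (intRep (PadicAlgCl p) (B n hn)))).filter
          fun χ : HR →+* PadicAlgCl p => InP A c χ).card : ℝ) else 0)
      (fun n => if Good A c then β n / (2 * fdeg A c) else 0) := by
  by_cases hG : Good A c
  · have hf : (fdeg A c : ℝ) ≠ 0 := by exact_mod_cast (fdeg_pos A c).ne'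
    refine (hβ.smul (1 / (2 * fdeg A c))).congr ?_ ?_ ?_
    · intro n x
      by_cases hn : Even n
      · simp only [dif_pos hn]
        rw [count_class hG hA (B n hn)
          (fun χ => (p : ℝ) ^ (-x) ≤ ‖χ (Xp p)‖) (fun σ χ => by
            have e : ‖(σ : PadicAlgCl p →+* PadicAlgCl p) (χ (Xp p))‖ = ‖χ (Xp p)‖ := norm_aut σ _
            rw [RingHom.comp_apply, e])]
        push_cast
        field_simp
      · simp only [dif_neg hn, mul_zero]
    · intro n
      by_cases hn : Even n
      · simp only [dif_pos hn]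
        have h1 := count_class hG hA (B n hn) (fun _ => True) (fun σ χ => Iff.rfl)
        have h2 : ∀ (T : Multiset (HR →+* PadicAlgCl p))
            (dp : DecidablePred fun _ : HR →+* PadicAlgCl p => True),
            @Multiset.filter _ (fun _ => True) dp T = T :=
          fun T dp => (@Multiset.filter_eq_self _ (fun _ => True) dp T).mpr fun _ _ => trivial
        rw [h2] at h1
        simp only [and_true] at h1
        rw [h1]
        push_cast
        field_simp
      · simp only [dif_neg hn, mul_zero]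
    · intro n
      rw [if_pos hG]
      ring
  · refine Apx.zero.congr ?_ ?_ ?_
    · intro n x
      by_cases hn : Even n
      · simp only [dif_pos hn]
        have h1 : ((Sys (matRep (intRep (PadicAlgCl p) (B n hn)))).filter
            fun χ : HR →+* PadicAlgCl p => InP A c χ ∧ (p : ℝ) ^ (-x) ≤ ‖χ (Xp p)‖) = 0 := by
          rw [Multiset.filter_eq_nil]
          intro χ hχ hI
          exact hG (good_of_mem hc hA (B n hn) χ hχ hI.1)
        rw [h1]
        simp
      · simp only [dif_neg hn]
    · intro n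
      by_cases hn : Even n
      · simp only [dif_pos hn]
        have h1 : ((Sys (matRep (intRep (PadicAlgCl p) (B n hn)))).filter
            fun χ : HR →+* PadicAlgCl p => InP A c χ) = 0 := by
          rw [Multiset.filter_eq_nil]
          intro χ hχ hI
          exact hG (good_of_mem hc hA (B n hn) χ hχ hI)
        rw [h1]
        simp
      · simp only [dif_neg hn]
    · intro n
      rw [if_neg hG]

open Classical in
/-- The cusp forms of level `M` from the class `(A, c)` of the integral matrices. -/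
theorem apx_cusp (M : ℕ) [NeZero M] (C n0 : ℕ)
    (hES : ∀ n (hn : Even n), n0 ≤ n → ∃ r : Multiset (MvPolynomial Nat.Primes ℤ →+* ℂ),
      r.card ≤ C ∧ Sys (matRep (intRep ℂ (B n hn))) =
        Sys (rhoC M (n + 2)) + Sys (rhoC M (n + 2)) + r) {P : ℝ} {β : ℕ → ℝ}
    (hβ : Apx P
      (fun n x => if hn : Even n then
        (1 / 2) * (((Sys (matRep (intRep (PadicAlgCl p) (B n hn)))).filter
          fun χ : HR →+* PadicAlgCl p => InP A c χ ∧ (p : ℝ) ^ (-x) ≤ ‖χ (Xp p)‖).card : ℝ) else 0)
      (fun n => if hn : Even n then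
        (1 / 2) * (((Sys (matRep (intRep (PadicAlgCl p) (B n hn)))).filter
          fun χ : HR →+* PadicAlgCl p => InP A c χ).card : ℝ) else 0) β) :
    Apx P (fun n x => (cnt j M (n + 2) A c x : ℝ)) (fun n => (tot j M (n + 2) A c : ℝ)) β := by
  have hodd : ∀ n, ¬ Even n → Sys (rhoC M (n + 2)) = 0 := by
    intro n hn
    exact Sys_odd (by rw [Nat.not_even_iff_odd] at hn; exact hn.add_even even_two)
  have key : ∀ n (hn : Even n), n0 ≤ n → ∀ P : (HR → PadicAlgCl p) → Prop,
      |((((Sys (rhoC M (n + 2))).filter fun χ => P fun r => emb p j (χ r)).card : ℕ) : ℝ) -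
        (1 / 2) * ((((Sys (matRep (intRep (PadicAlgCl p) (B n hn)))).filter
          fun χ => P fun r => χ r).card : ℕ) : ℝ)| ≤ C := by
    intro n hn hn0 P
    obtain ⟨r, hr, hrS⟩ := hES n hn hn0
    rw [← card_emb (B n hn) j P, hrS, Multiset.filter_add, Multiset.filter_add,
      Multiset.card_add, Multiset.card_add]
    have h1 : ((r.filter fun χ => P fun r => emb p j (χ r)).card : ℝ) ≤ C := by
      exact_mod_cast (Multiset.card_le_card (Multiset.filter_le _ _)).trans hr
    have h2 : (0 : ℝ) ≤ ((r.filter fun χ => P fun r => emb p j (χ r)).card : ℝ) :=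
      Nat.cast_nonneg _
    push_cast
    rw [abs_le]
    constructor <;> linarith
  refine hβ.perturb C n0 ?_ ?_
  · intro n hn0 x hx _
    by_cases hn : Even n
    · rw [dif_pos hn]
      have h1 := key n hn hn0 fun g => InP A c g ∧ (p : ℝ) ^ (-x) ≤ ‖g (Xp p)‖
      have h2 : cnt j M (n + 2) A c x = ((Sys (rhoC M (n + 2))).filter fun χ =>
          InP A c (fun r => emb p j (χ r)) ∧ (p : ℝ) ^ (-x) ≤ ‖emb p j (χ (Xp p))‖).card := by
        unfold cnt
        congr 1
        apply Multiset.filter_congr
        intro χ _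
        rw [slp, vp_le_iff hx]
        rfl
      rw [h2]
      convert h1
    · rw [dif_neg hn]
      have h2 : cnt j M (n + 2) A c x = 0 := by
        unfold cnt
        rw [hodd n hn]
        rfl
      rw [h2]
      simp
  · intro n hn0
    by_cases hn : Even n
    · rw [dif_pos hn]
      exact key n hn hn0 fun g => InP A c g
    · rw [dif_neg hn]
      have h2 : tot j M (n + 2) A c = 0 := by
        unfold tot
        rw [hodd n hn]
        rfl
      rw [h2]
      simp

open Classical in
/-- **General form.** -/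
theorem apx_gen (M : ℕ) [NeZero M] (C n0 : ℕ)
    (hES : ∀ n (hn : Even n), n0 ≤ n → ∃ r : Multiset (MvPolynomial Nat.Primes ℤ →+* ℂ),
      r.card ≤ C ∧ Sys (matRep (intRep ℂ (B n hn))) =
        Sys (rhoC M (n + 2)) + Sys (rhoC M (n + 2)) + r)
    (hA : ∀ q ∈ A, (q : ℕ) ≠ p) (hc : ∀ q ∈ A, ‖c q‖ ≤ 1) {P : ℝ} {β : ℕ → ℝ}
    (hβ : Apx P
      (fun n x => if hn : Even n then
        (((SJ (B n hn) (Jc A c)).filter fun χ => (p : ℝ) ^ (-x) ≤ ‖χ (Xp p)‖).card : ℝ) else 0)
      (fun n => if hn : Even n then ((SJ (B n hn) (Jc A c)).card : ℝ) else 0) β) :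
    Apx P (fun n x => (cnt j M (n + 2) A c x : ℝ)) (fun n => (tot j M (n + 2) A c : ℝ))
      (fun n => if Good A c then β n / (2 * fdeg A c) else 0) :=
  apx_cusp j B M C n0 hES (apx_classJ B hA hc hβ)

end

end Gouvea.Fin
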