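import Pool.Agent.Work.MP_d3517d_nt.Fin.Main
import Pool.Agent.Work.MP_d3517d_nt.P5.LevTwo

/-!
# Gouvêa's question for `p = 2` and `p = 3` (MP_d3517d_nt)

`q1_23_of`: the last step, from the counting functions at the levels `M ∣ N` (`P5/LevTwo` for
`M ≥ 2`, `P5/LevOne` for `M = 1`), the comparison of the levels `M p ^ 2` and `M p`, and the
positivity of the density of the newforms.
-/

open UpperHalfPlane CongruenceSubgroup
open scoped MatrixGroups ModularForm ENNReal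

noncomputable section

namespace Gouvea.Fin

open Gouvea.Sys Gouvea.ES

variable {p : ℕ} [hp : Fact p.Prime]

theorem tot_level (j : algebraicClosure ℚ ℂ →+* PadicAlgCl p) {L L' : ℕ} (h : L = L') [NeZero L]
    [NeZero L'] (k : ℕ) (A : Set Nat.Primes) (c : Nat.Primes → PadicAlgCl p) :
    tot j L k A c = tot j L' k A c := by
  subst h
  rfl

/-- **The last step for `p = 2, 3`.** -/
theorem q1_23_of (hp23 : p = 2 ∨ p = 3) {N : ℕ} (hN : 0 < N) (hpN : ¬ p ∣ N)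
    (h1 : ∀ (j : algebraicClosure ℚ ℂ →+* PadicAlgCl p) {A : Set Nat.Primes}
      {c : Nat.Primes → PadicAlgCl p}, (∀ q ∈ A, (q : ℕ) ≠ p) → (∀ q ∈ A, ‖c q‖ ≤ 1) →
      ∃ b C : ℝ, 0 ≤ b ∧ Apx ((p : ℝ) + 1) (fun n x => (cnt j 1 (n + 2) A c x : ℝ))
        (fun n => (tot j 1 (n + 2) A c : ℝ)) (fun n => if Even n then b else 0) ∧
        ∀ n, Even n → |(tot j (1 * p) (n + 2) A c : ℝ) - b * n| ≤ C)
    (hT : ∀ (j : algebraicClosure ℚ ℂ →+* PadicAlgCl p) (M : ℕ) [NeZero M], ¬ p ∣ M →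
      ∀ {A : Set Nat.Primes} {c : Nat.Primes → PadicAlgCl p}, (∀ q ∈ A, (q : ℕ) ≠ p) →
      (∀ q ∈ A, ‖c q‖ ≤ 1) → ∃ C : ℝ, ∀ n, Even n →
        |(tot j (M * p * p) (n + 2) A c : ℝ) - p * tot j (M * p) (n + 2) A c| ≤ C)
    (hpos : ∀ (j : algebraicClosure ℚ ℂ →+* PadicAlgCl p) (k₀ : ℕ) (f₀ : Gouvea.Cusp N k₀),
      IsNewform N k₀ f₀ → (∀ q ∈ AN p N, ‖clc j f₀ q‖ ≤ 1) → ∀ bt : ℕ → ℝ,
      (∀ (M : ℕ) [NeZero (p * p * M)], M ∣ N → ∃ C : ℝ, ∀ n, Even n →
        |(tot j (p * p * M) (n + 2) (AN p N) (clc j f₀) : ℝ) - p * bt M * n| ≤ C) →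
      0 < ∑ x ∈ N.divisorsAntidiagonal,
        (((ArithmeticFunction.moebius * ArithmeticFunction.moebius) x.1 : ℤ) : ℝ) * bt x.2) :
    Q1 p N := by
  refine q1_of_levels hN hpN fun j k₀ f₀ hf₀ hc => ?_
  set A := AN p N with hA0
  set c := clc j f₀ with hc0
  have hA : ∀ q ∈ A, (q : ℕ) ≠ p := by
    intro q hq h
    exact hq (by rw [h]; exact Dvd.intro_left N rfl)
  have hMp : ∀ M, M ∣ N → ¬ p ∣ M := fun M hM h => hpN (h.trans hM)
  have key : ∀ M : ℕ, M ∣ N → ∃ b C : ℝ, 0 ≤ b ∧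
      (∀ [NeZero M], Apx ((p : ℝ) + 1) (fun n x => (cnt j M (n + 2) A c x : ℝ))
        (fun n => (tot j M (n + 2) A c : ℝ)) (fun n => if Even n then b else 0)) ∧
      ∀ [NeZero (M * p)] n, Even n → |(tot j (M * p) (n + 2) A c : ℝ) - b * n| ≤ C := by
    intro M hM
    rcases Nat.lt_or_ge M 2 with h | h
    · have hM1 : M = 1 := by
        have := Nat.pos_of_dvd_of_pos hM hN
        omega
      subst hM1
      obtain ⟨b, C, hb, h2, h3⟩ := h1 j hA hc
      exact ⟨b, C, hb, fun {_} => h2, fun {_} => h3⟩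
    · have : NeZero M := ⟨by omega⟩
      obtain ⟨b, C, hb, h2, h3⟩ := P5.lev_two hp23 j M h (hMp M hM) hA hc
      exact ⟨b, C, hb, fun {_} => h2, fun {_} => h3⟩
  choose! bt C hbt hapx htot using key
  refine ⟨fun M n => if Even n then bt M else 0, 2, 0, two_pos, ?_, ?_, ?_⟩
  · intro M n
    have : Even (n + 2) ↔ Even n := by
      rw [Nat.even_add]
      simp
    simp only [this]
  · intro M _ hM
    exact hapx M hM
  · have h0 : Even 0 := Even.zero
    simp only [h0, if_true]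
    refine hpos j k₀ f₀ hf₀ hc bt fun M hM0 hM => ?_
    have hM1 : M ≠ 0 := fun h => by
      rw [h, mul_zero] at hM0
      exact hM0.out rfl
    have : NeZero M := ⟨hM1⟩
    have : NeZero (M * p) := ⟨mul_ne_zero hM1 hp.out.ne_zero⟩
    obtain ⟨D, hD⟩ := hT j M (hMp M hM) hA hc
    refine ⟨D + p * C M, fun n hn => ?_⟩
    rw [tot_level j (show p * p * M = M * p * p by ring)]
    have a1 := hD n hn
    have a2 := htot M hM n hn
    have hp0 : (0 : ℝ) ≤ p := Nat.cast_nonneg _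
    have a3 : |(p : ℝ) * ((tot j (M * p) (n + 2) A c : ℝ) - bt M * n)| ≤ p * C M := by
      rw [abs_mul, abs_of_nonneg hp0]
      exact mul_le_mul_of_nonneg_left a2 hp0
    have e : (tot j (M * p * p) (n + 2) A c : ℝ) - p * bt M * n =
        ((tot j (M * p * p) (n + 2) A c : ℝ) - p * tot j (M * p) (n + 2) A c) +
          p * ((tot j (M * p) (n + 2) A c : ℝ) - bt M * n) := by ring
    rw [e]
    exact (abs_add_le _ _).trans (add_le_add a1 a3)

end Gouvea.Fin
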