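import Pool.Agent.Work.MP_d3517d_nt.Fin.Level
import Pool.Agent.Work.MP_d3517d_nt.Fin.SrcApx
import Pool.Agent.Work.MP_d3517d_nt.NF.Main
import Pool.Agent.Work.MP_d3517d_nt.NF.Integral
import Pool.Agent.Work.MP_d3517d_nt.ES.Main
import Pool.Agent.Work.MP_d3517d_nt.POS.GreBet

/-!
# Positivity of the density at level `1` (MP_d3517d_nt, cell FIN)

* `exists_lift_p`: a system of level `M` in a class gives one of level `M p`;
* `TG_rt`: level `M` from level `4 M` with the chosen root at `2`;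
* `mem_one`: the system of a newform of level `1`;
* `pos_one`: the density of the newforms of level `1` in the class of a newform is positive.
-/

open UpperHalfPlane CongruenceSubgroup MvPolynomial
open scoped MatrixGroups ModularForm ENNReal

noncomputable section

namespace Gouvea.Fin

open Gouvea.Sys Gouvea.ES Gouvea.Desc

variable {p : ℕ} [Fact p.Prime] (j : algebraicClosure ℚ ℂ →+* PadicAlgCl p)

/-- A system in the class at level `M` gives one at level `M p`. -/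
theorem exists_lift_p {M k : ℕ} [NeZero M] [NeZero (M * p)] (hpM : ¬ p ∣ M) (hk : 2 ≤ k)
    {A : Set Nat.Primes} {c : Nat.Primes → PadicAlgCl p} (hA : pr p ∉ A)
    (h : ∃ χ ∈ Sys (rhoC M k), InC j A c χ) :
    ∃ χ ∈ Sys (rhoC (M * p) k), InC j A c χ := by
  obtain ⟨χ, hχ, hI⟩ := h
  obtain ⟨rest, h1, -⟩ := Sys_cusp_unram M k (pr p) hpM hk
  obtain ⟨a, b, hab, hc⟩ := exists_ab (χ (X (pr p))) (((((pr p : ℕ) : ℤ) ^ (k - 1) : ℤ)) : ℂ)
  have h2 : Sys (rhoC (M * p) k) = (Sys (rhoC M k)).bind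
      (two (pr p) (((((pr p : ℕ) : ℤ) ^ (k - 1) : ℤ)) : ℂ)) + rest := h1
  refine ⟨repl (pr p) χ a, ?_, ?_⟩
  · rw [h2]
    refine Multiset.mem_add.2 (Or.inl (Multiset.mem_bind.2 ⟨χ, hχ, ?_⟩))
    rw [two_eq (pr p) _ χ a b hab hc]
    exact Multiset.mem_cons_self _ _
  · intro q hq
    rw [repl_ne (pr p) q (fun h => hA (h ▸ hq))]
    exact hI q hq

/-- level `M` from level `4 M`, `M` odd, with the chosen root at `2` -/
theorem TG_rt (hI : Int1) (hp : 5 ≤ p) (M n : ℕ) [NeZero M] (h2 : ¬ 2 ∣ M)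
    {A : Set Nat.Primes} (hA : pr2 ∈ A) {c : Nat.Primes → PadicAlgCl p} (hc : ‖c pr2‖ ≤ 1)
    (G : (MvPolynomial Nat.Primes ℤ →+* ℂ) → Prop) (hG : ∀ χ a, G (repl pr2 χ a) ↔ G χ) :
    mu (c pr2) (n % (p - 1)) * TG j M (n + 2) A c G =
      TG j (M * 2 * 2) (n + 2) A (Function.update c pr2 (rt (c pr2) (n % (p - 1)))) G := by
  have hp3 : 3 ≤ p := by omega
  have hrt := isRt_rt hp hc (n % (p - 1))
  have hα1 := hrt.norm_le hc
  have hsq : ‖rt (c pr2) (n % (p - 1)) ^ 2‖ ≤ 1 := by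
    rw [norm_pow]
    exact pow_le_one₀ (norm_nonneg _) hα1
  have h2r : ∀ r : ℕ, ‖(2 : PadicAlgCl p) ^ r‖ ≤ 1 := fun r => by
    rw [norm_pow]
    exact pow_le_one₀ (norm_nonneg _) norm_two_le
  have e1 : rs (rt (c pr2) (n % (p - 1))) ^ 2 -
      rs (c pr2) * rs (rt (c pr2) (n % (p - 1))) + 2 ^ (n + 1) = 0 := by
    have h5 := congrArg rs hrt.1
    rw [rs_zero, sub_eq_add_neg, rs_add (Sys.norm_add_le_one hsq (by
      rw [norm_neg]; exact norm_mul_le_one hc hα1)) (h2r _), rs_add hsq (by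
      rw [norm_neg]; exact norm_mul_le_one hc hα1), rs_neg (norm_mul_le_one hc hα1),
      rs_mul hc hα1, rs_pow hα1, rs_two_pow, ← two_pow_mod hp3 n 1] at h5
    rw [← h5]
    ring
  have hne : (2 : kap p) ^ (n + 1) ≠ 0 := pow_ne_zero _ (two_ne hp3)
  have e2 : rs (rt (c pr2) (n % (p - 1))) ≠ 0 := by
    intro h0
    rw [h0] at e1
    apply hne
    linear_combination e1
  have e3 : rs (rt (c pr2) (n % (p - 1))) ^ 2 ≠ 2 ^ n := by
    intro h0
    have h6 := two_pow_mod (p := p) hp3 n 0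
    rw [add_zero, add_zero] at h6
    rw [h6, ← rs_two_pow, ← rs_pow hα1, rs_eq_iff hsq (h2r _), hrt.2] at h0
    exact lt_irrefl _ h0
  exact TG_at j hI M n h2 hA c hc G hG _ hα1 e1 e2 e3

theorem exists_of_TG_pos {M k : ℕ} [NeZero M] {A : Set Nat.Primes}
    {c : Nat.Primes → PadicAlgCl p} {G : (MvPolynomial Nat.Primes ℤ →+* ℂ) → Prop}
    (h : 0 < TG j M k A c G) : ∃ χ ∈ Sys (rhoC M k), InC j A c χ ∧ G χ := by
  classical
  rw [TG, msum_one, Nat.cast_pos, Multiset.card_pos_iff_exists_mem] at h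
  obtain ⟨χ, hχ⟩ := h
  exact ⟨χ, (Multiset.mem_filter.1 hχ).1, (Multiset.mem_filter.1 hχ).2⟩

theorem TG_pos {M k : ℕ} [NeZero M] {A : Set Nat.Primes}
    {c : Nat.Primes → PadicAlgCl p} {G : (MvPolynomial Nat.Primes ℤ →+* ℂ) → Prop}
    (h : ∃ χ ∈ Sys (rhoC M k), InC j A c χ ∧ G χ) : 0 < TG j M k A c G := by
  classical
  obtain ⟨χ, hχ, h1⟩ := h
  rw [TG, msum_one, Nat.cast_pos, Multiset.card_pos_iff_exists_mem]
  exact ⟨χ, Multiset.mem_filter.2 ⟨hχ, h1⟩⟩

/-- The group `Γ₀(1)`. -/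
theorem Gam0_one : Gam0 1 = 𝒮ℒ := by
  have h : Gamma0 1 = ⊤ := by
    ext g
    simp only [Gamma0_mem, Subgroup.mem_top, iff_true]
    exact Subsingleton.elim _ _
  rw [Gam0, h]
  ext x
  simp

theorem eq_zero_of_lt {Γ : Subgroup (GL (Fin 2) ℝ)} (hΓ : Γ = 𝒮ℒ) {k : ℕ} (hk : k < 12)
    (f : CuspForm Γ (k : ℤ)) : f = 0 := by
  subst hΓ
  exact rank_zero_iff_forall_zero.1
    (CuspForm.rank_eq_zero_of_weight_lt_twelve (by exact_mod_cast hk)) f

/-- A nonzero cusp form of level one has weight at least `12`. -/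
theorem twelve_le {k : ℕ} (f : Gouvea.Cusp 1 k) (hf : f ≠ 0) : 12 ≤ k := by
  by_contra hk
  push Not at hk
  exact hf (eq_zero_of_lt Gam0_one hk f)

/-- the residual system of a newform at the primes of `AN p N` is in the class of the newform -/
theorem InC_self (A : Set Nat.Primes) (f : ℍ → ℂ) :
    InC j A (fun q => emb p j (coef f q)) (NF.chiNF f) := by
  intro q _
  rw [NF.chiNF_X, sub_self, norm_zero]
  exact one_pos

theorem InC_primeTo {A : Set Nat.Primes} {N : ℕ} (hA : ∀ q ∈ A, ¬ (q : ℕ) ∣ N)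
    (c : Nat.Primes → PadicAlgCl p) : NF.PrimeTo N (InC j A c) := by
  intro χ χ' h h1 q hq
  rw [← h q (hA q hq)]
  exact h1 q hq

/-- a newform of level `1` occurs among the systems of level `1` -/
theorem exists_one {k : ℕ} {f : Gouvea.Cusp 1 k} (hf : IsNewform 1 k f) (A : Set Nat.Primes) :
    ∃ χ ∈ Sys (rhoC 1 k), InC j A (fun q => emb p j (coef f q)) χ := by
  classical
  have hQ := InC_primeTo j (A := A) (N := 1)
    (fun q _ h => q.2.one_lt.ne' (Nat.dvd_one.1 h)) (fun q => emb p j (coef f q))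
  have h1 := NF.card_newforms k one_pos hQ
  rw [Nat.divisorsAntidiagonal_one, Finset.sum_singleton] at h1
  have h2 : (ArithmeticFunction.moebius * ArithmeticFunction.moebius) 1 = 1 := by
    simp [ArithmeticFunction.mul_apply]
  rw [show ((1, 1) : ℕ × ℕ).1 = 1 from rfl, show ((1, 1) : ℕ × ℕ).2 = 1 from rfl, h2, one_mul,
    Nat.cast_inj, NF.cS_eq] at h1
  have h3 : 0 < ({F : Gouvea.Cusp 1 k | IsNewform 1 k F ∧
      InC j A (fun q => emb p j (coef f q)) (NF.chiNF F)}).ncard := by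
    rw [Set.ncard_pos ((NF.finite_setOf_isNewform 1 k one_pos).subset fun F hF => hF.1)]
    exact ⟨f, hf, InC_self j A f⟩
  rw [h1, Multiset.card_pos_iff_exists_mem] at h3
  obtain ⟨χ, hχ⟩ := h3
  exact ⟨χ, (Multiset.mem_filter.1 hχ).1, (Multiset.mem_filter.1 hχ).2⟩

theorem four_ndvd_of (hp : 3 ≤ p) : ¬ p ∣ 4 := by
  intro h
  have h1 : p ∣ 2 := (Fact.out : p.Prime).dvd_of_dvd_pow (show p ∣ 2 ^ 2 by norm_num; exact h)
  have := Nat.le_of_dvd (by norm_num) h1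
  omega

/-- **A newform of level `1` gives a system on the symbols of level `4 p`.** -/
theorem mem_one (hI : Int1) (hp : 5 ≤ p) {k0 : ℕ} {f0 : Gouvea.Cusp 1 k0}
    (hf0 : IsNewform 1 k0 f0) [NeZero (4 * p)] :
    Even (k0 - 2) ∧ 3 ≤ k0 - 2 ∧
    ∃ χ ∈ Sys (rhoC (4 * p) (k0 - 2 + 2)), InC j (AN p 1)
      (Function.update (fun q => emb p j (coef f0 q)) pr2
        (rt (emb p j (coef f0 2)) ((k0 - 2) % (p - 1)))) χ := by
  have hne : f0 ≠ 0 := by
    rintro rfl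
    have h1 := hf0.norm
    rw [show coef (⇑(0 : Gouvea.Cusp 1 k0)) 1 = 0 from ?_] at h1
    · exact zero_ne_one h1
    · have h2 := NF.coef_smul (N := 1) (k := k0) one_pos (NF.coe_mem_Sp (0 : Gouvea.Cusp 1 k0))
        (c := 0) (n := 1)
      simpa using h2
  have h12 := twelve_le f0 hne
  have hev : Even k0 := by
    rw [← Nat.not_odd_iff_even]
    exact fun h => hne (cusp_odd h f0)
  obtain ⟨n, hn⟩ : ∃ n, k0 = n + 2 := ⟨k0 - 2, by omega⟩
  subst hn
  rw [Nat.add_sub_cancel]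
  have hev' : Even n := (Nat.even_add.1 hev).2 even_two
  refine ⟨hev', by omega, ?_⟩
  set c : Nat.Primes → PadicAlgCl p := fun q => emb p j (coef f0 q) with hc
  have hc1 : ∀ q, ‖c q‖ ≤ 1 := fun q => norm_emb_le j
    (NF.isIntegral_coef one_pos q.2 (fun h => q.2.one_lt.ne' (Nat.dvd_one.1 h)) hf0)
  have hA2 : pr2 ∈ AN p 1 := by
    intro h
    rw [one_mul] at h
    have := (Nat.prime_dvd_prime_iff_eq Nat.prime_two (Fact.out : p.Prime)).1 h
    omega
  have h1 : 0 < TG j 1 (n + 2) (AN p 1) c (fun _ => True) := by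
    obtain ⟨χ, hχ, h⟩ := exists_one j hf0 (AN p 1)
    exact TG_pos j ⟨χ, hχ, h, trivial⟩
  have h2 := TG_rt j hI hp 1 n (by norm_num) hA2 (hc1 pr2) (fun _ => True) (fun _ _ => Iff.rfl)
  have h3 : 0 < TG j (1 * 2 * 2) (n + 2) (AN p 1)
      (Function.update c pr2 (rt (c pr2) (n % (p - 1)))) (fun _ => True) := by
    rw [← h2]
    exact mul_pos (mu_pos _ _) h1
  obtain ⟨χ, hχ, h4, -⟩ := exists_of_TG_pos j h3
  exact exists_lift_p j (M := 4) (four_ndvd_of (by omega)) (by omega) (pr_notMem_AN 1)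
    ⟨χ, hχ, h4⟩

/-- **A newform of level `1` gives a system on the symbols of level `4 p`.** -/
theorem mem_one_S (hI : Int1) (hp : 5 ≤ p) {k0 : ℕ} {f0 : Gouvea.Cusp 1 k0}
    (hf0 : IsNewform 1 k0 f0) [NeZero (4 * p)] (h4 : 4 ∣ 4 * p) (hev : Even (k0 - 2)) :
    haveI := finiteDimensional_Sym ℂ (4 * p) (k0 - 2) hev
    ∃ χ ∈ Sys (rhoS ℂ (4 * p) (k0 - 2) h4), InC j (AN p 1)
      (Function.update (fun q => emb p j (coef f0 q)) pr2
        (rt (emb p j (coef f0 2)) ((k0 - 2) % (p - 1)))) χ := by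
  have := finiteDimensional_Sym ℂ (4 * p) (k0 - 2) hev
  obtain ⟨-, h3, χ, hχ, h⟩ := mem_one j hI hp hf0
  obtain ⟨r, -, h1⟩ := Sys_Sym (M := 4 * p) (n := k0 - 2) h4 hev h3
  refine ⟨χ, ?_, h⟩
  rw [h1]
  exact Multiset.mem_add.2 (Or.inl (Multiset.mem_add.2 (Or.inl hχ)))

/-- **The density of a class is positive** if the class occurs on the symbols of level `M p`. -/
theorem bet_pos_of_mem (hp : 3 ≤ p) {M : ℕ} [NeZero M] [NeZero (M * p)] (hM : 4 ∣ M)
    (hpM : ¬ p ∣ M) (hMp : 4 ∣ M * p) {A : Set Nat.Primes} {c : Nat.Primes → PadicAlgCl p}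
    (hA : pr p ∉ A) (hc : ∀ q ∈ A, ‖c q‖ ≤ 1) {n : ℕ} (hn : Even n)
    (h : haveI := finiteDimensional_Sym ℂ (M * p) n hn
      ∃ χ ∈ Sys (rhoS ℂ (M * p) n hMp), InC j A c χ) : 0 < bet M A c n := by
  classical
  have hA' : ∀ q ∈ A, (q : ℕ) ≠ p := fun q hq h => hA (by
    have : pr p = q := Subtype.ext h.symm
    rwa [this])
  have hp1 : 0 < p - 1 := by omega
  have hpe : Even (p - 1) := by
    obtain ⟨k, hk⟩ := (Fact.out : p.Prime).odd_of_ne_two (by omega)
    exact ⟨k, by omega⟩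
  have hle : n + 2 ≤ (p - 1) * (n + 2) := Nat.le_mul_of_pos_left _ hp1
  have hn1 : Even ((p - 1) * (n + 2) - (n + 2)) :=
    (Nat.even_sub hle).2 (iff_of_true (hpe.mul_right _) (hn.add even_two))
  have h1 := POS.gre (p := p) (by omega) hM hpM j hMp hA' hc hn hn1 (m := n + 2) (by omega)
  have := finiteDimensional_Sym ℂ (M * p) n hn
  have h2 : 0 < ((Sys (rhoS ℂ (M * p) n hMp)).filter fun χ => InC j A c χ).card := by
    obtain ⟨χ, hχ, hI⟩ := h
    rw [Multiset.card_pos_iff_exists_mem]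
    exact ⟨χ, Multiset.mem_filter.2 ⟨hχ, hI⟩⟩
  have h3 : (0 : ℝ) < (((Sys (rhoS ℂ (M * p) n hMp)).filter fun χ => InC j A c χ).card : ℝ) := by
    exact_mod_cast h2
  have hp' : (1 : ℝ) < p := by exact_mod_cast (Fact.out : p.Prime).one_lt
  by_contra hcon
  push Not at hcon
  have h4 : ((p : ℝ) - 1) * ((n + 2 : ℕ) : ℝ) * bet M A c n ≤ 0 :=
    mul_nonpos_of_nonneg_of_nonpos (mul_nonneg (by linarith) (Nat.cast_nonneg _)) hcon
  rw [h1] at h4
  have h5 : (0 : ℝ) < (1 / 2) *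
      ((((Sys (rhoS ℂ (M * p) n hMp)).filter fun χ => InC j A c χ).card : ℝ)) := by positivity
  refine absurd h4 (not_le.2 (lt_of_lt_of_le h5 ?_))
  rw [mul_add]
  exact le_add_of_nonneg_right (by positivity)

/-- **Positivity at level `1`.** -/
theorem pos_one (hI : Int1) (hp : 5 ≤ p) {k0 : ℕ} {f0 : Gouvea.Cusp 1 k0}
    (hf0 : IsNewform 1 k0 f0) :
    0 < newden bet 1 (fun q => emb p j (coef f0 q)) (k0 - 2) := by
  have : NeZero (4 * p) := ⟨by have := (Fact.out : p.Prime).pos; omega⟩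
  have hev := (mem_one j hI hp hf0).1
  have h1 := mem_one_S j hI hp hf0 (Dvd.intro _ rfl) hev
  have hc1 : ∀ q : Nat.Primes, ‖emb p j (coef f0 q)‖ ≤ 1 := fun q => norm_emb_le j
    (NF.isIntegral_coef one_pos q.2 (fun h => q.2.one_lt.ne' (Nat.dvd_one.1 h)) hf0)
  have h2 : 0 < bet 4 (AN p 1) (Function.update (fun q => emb p j (coef f0 q)) pr2
      (rt (emb p j (coef f0 2)) ((k0 - 2) % (p - 1)))) (k0 - 2) := by
    refine bet_pos_of_mem j (by omega) dvd_rfl (four_ndvd_of (by omega)) (Dvd.intro _ rfl)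
      (pr_notMem_AN 1) (fun q _ => ?_) hev h1
    by_cases h : q = pr2
    · subst h
      rw [Function.update_self]
      exact (isRt_rt hp (hc1 pr2) _).norm_le (hc1 pr2)
    · rw [Function.update_of_ne h]
      exact hc1 q
  have h3 : newden bet 1 (fun q => emb p j (coef f0 q)) (k0 - 2) =
      bet 4 (AN p 1) (Function.update (fun q => emb p j (coef f0 q)) pr2
      (rt (emb p j (coef f0 2)) ((k0 - 2) % (p - 1)))) (k0 - 2) /
        mu (emb p j (coef f0 2)) ((k0 - 2) % (p - 1)) := by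
    rw [newden, Nat.divisorsAntidiagonal_one, Finset.sum_singleton]
    have h4 : (ArithmeticFunction.moebius * ArithmeticFunction.moebius) 1 = 1 := by
      simp [ArithmeticFunction.mul_apply]
    rw [show ((1, 1) : ℕ × ℕ).1 = 1 from rfl, show ((1, 1) : ℕ × ℕ).2 = 1 from rfl, h4,
      Int.cast_one, one_mul]
    simp only [den]
    rw [if_neg (by norm_num), if_neg (by norm_num), if_neg (by norm_num)]
    rfl
  rw [h3]
  exact div_pos h2 (mu_pos _ _)

end Gouvea.Fin
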