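import Pool.Agent.Work.MP_d3517d_nt.Fin.Main
import Pool.Agent.Work.MP_d3517d_nt.Fin.Source
import Pool.Agent.Work.MP_d3517d_nt.Fin.PosOne
import Pool.Agent.Work.MP_d3517d_nt.ES.Integral

/-!
# Gouvêa's question for level one, `p ≥ 5` (MP_d3517d_nt)
-/

noncomputable section

namespace Gouvea.Fin

open Gouvea.Sys Gouvea.ES

variable {p : ℕ} [Fact p.Prime]

theorem int1 : Int1 := fun _ _ _ _ h q => ES.isIntegral_of_mem_rhoC h (MvPolynomial.X q)

theorem src (hp2 : p ≠ 2) (j : algebraicClosure ℚ ℂ →+* PadicAlgCl p) : Src j bet where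
  per M A c n := bet_n M A c n
  apx M _ h4 hpM A c hA hc := apx_bet j hp2 M h4 hpM
    (fun q hq h => hA (by
      have : pr p = q := Subtype.ext h.symm
      rwa [this])) hc

/-- **Gouvêa's question, level one, `p ≥ 5`.** -/
theorem q1_one (hp : 5 ≤ p) : Q1 p 1 := by
  have hpr : p.Prime := Fact.out
  refine q1_of_src hp one_pos (fun h => hpr.one_lt.ne' (Nat.dvd_one.1 h))
    (fun j => src (by omega) j) int1 fun j k₀ f₀ hf₀ => ?_
  exact pos_one j int1 hp hf₀

end Gouvea.Fin
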